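import Pool.Agent.Work.MP_67388f_an.HZ.Defs
import Pool.Agent.Work.MP_67388f_an.TV.Defs
import Pool.Agent.Work.MP_67388f_an.Cartan

set_option autoImplicit false

namespace Pool.Agent.Work.MP_67388f_an

open MeasureTheory Filter Topology Matrix Set
open scoped ENNReal

/-- Cauchy weight on the line. -/
noncomputable def quasi_w (s : ℝ) : ℝ≥0∞ := ENNReal.ofReal ((1 + s ^ 2)⁻¹)

lemma quasi_w_meas : Measurable quasi_w := by
  unfold quasi_w
  fun_prop

lemma quasi_w_pos (s : ℝ) : quasi_w s ≠ 0 := by
  unfold quasi_w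
  have : 0 < (1 + s ^ 2)⁻¹ := by positivity
  exact (ENNReal.ofReal_pos.2 this).ne'

lemma quasi_w_shift (s t : ℝ) :
    quasi_w (s - t) ≤ ENNReal.ofReal (1 + |t| + t ^ 2) * quasi_w s := by
  unfold quasi_w
  rw [← ENNReal.ofReal_mul (by positivity)]
  refine ENNReal.ofReal_le_ofReal ?_
  rw [inv_eq_one_div, inv_eq_one_div, mul_one_div, div_le_div_iff₀ (by positivity) (by positivity)]
  have h1 : |s - t| * 2 ≤ 1 + (s - t) ^ 2 := by
    nlinarith [sq_nonneg (|s - t| - 1), sq_abs (s - t)]
  have h2 : (s - t) * t ≤ |s - t| * |t| := by rw [← abs_mul]; exact le_abs_self _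
  have h3 : 0 ≤ |t| := abs_nonneg t
  have h4 : t ^ 2 = |t| ^ 2 := (sq_abs t).symm
  nlinarith [mul_nonneg h3 (sub_nonneg.2 h1), sq_nonneg (s - t), sq_nonneg t,
    mul_nonneg (sq_nonneg t) (sq_nonneg (s - t))]

/-- The Cauchy distribution (not normalized). -/
noncomputable def quasi_rho : Measure ℝ := volume.withDensity quasi_w

instance : IsFiniteMeasure quasi_rho := by
  unfold quasi_rho
  refine isFiniteMeasure_withDensity ?_
  have h := integrable_inv_one_add_sq.lintegral_lt_top
  exact h.ne

lemma quasi_rho_shift (φ : ℝ → ℝ≥0∞) (hφ : Measurable φ) (t : ℝ) :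
    ∫⁻ s, φ (t + s) ∂quasi_rho ≤ ENNReal.ofReal (1 + |t| + t ^ 2) * ∫⁻ s, φ s ∂quasi_rho := by
  unfold quasi_rho
  have hφt : Measurable (fun s => φ (t + s)) := hφ.comp (measurable_const_add t)
  rw [lintegral_withDensity_eq_lintegral_mul _ quasi_w_meas hφ,
    lintegral_withDensity_eq_lintegral_mul _ quasi_w_meas hφt,
    ← lintegral_const_mul _ (quasi_w_meas.mul hφ)]
  rw [← lintegral_add_left_eq_self (μ := volume)
    (fun s => (quasi_w * fun s => φ (t + s)) s) (-t)]
  refine lintegral_mono fun s => ?_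
  simp only [Pi.mul_apply]
  rw [add_neg_cancel_left, ← mul_assoc]
  refine mul_le_mul_left ?_ _
  have := quasi_w_shift s t
  rwa [sub_eq_neg_add] at this

section general

variable {X : Type*} [TopologicalSpace X] [LocallyCompactSpace X] [T2Space X]
  [SecondCountableTopology X] [MeasurableSpace X] [BorelSpace X]
variable {G : Type*} [Group G] [TopologicalSpace G] [IsTopologicalGroup G] [MulAction G X]
  [ContinuousSMul G X]

theorem sing_or_inv (b : ℝ → G) (hb : Continuous b) (hadd : ∀ s t, b (s + t) = b s * b t)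
    (μ : Measure X) [IsProbabilityMeasure μ]
    (hT : ∀ ν : Measure X, IsFiniteMeasure ν → ¬ μ ⟂ₘ ν → ∀ s : ℕ → ℝ, Tendsto s atTop (𝓝 0) →
      TVto atTop (fun k => b (s k)) ν → ∀ᶠ k in atTop, μ.map (fun z => b (s k) • z) = μ) :
    (∀ s, μ.map (fun z => b s • z) = μ) ∨ SingAlong b μ := by
  by_cases hs : SingAlong b μ
  · exact Or.inr hs
  left
  unfold SingAlong at hs
  push Not at hs
  obtain ⟨ν, hν, hE⟩ := hs
  have hact : Measurable (fun p : ℝ × X => b p.1 • p.2) :=
    ((hb.comp continuous_fst).smul continuous_snd).measurable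
  set ν' : Measure X := (quasi_rho.prod ν).map (fun p => b p.1 • p.2) with hν'
  have hfin : IsFiniteMeasure ν' := Measure.isFiniteMeasure_map _ _
  have hval : ∀ E : Set X, MeasurableSet E →
      ν' E = ∫⁻ s, ν ((fun z => b s • z) ⁻¹' E) ∂quasi_rho := by
    intro E hE
    rw [hν', Measure.map_apply hact hE, Measure.prod_apply (hact hE)]
    rfl
  have hmeas : ∀ E : Set X, MeasurableSet E →
      Measurable (fun s => ν ((fun z => b s • z) ⁻¹' E)) := by
    intro E hE
    exact measurable_measure_prodMk_left (hact hE)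
  have hns : ¬ μ ⟂ₘ ν' := by
    rintro ⟨t, ht, h1, h2⟩
    obtain h3 := hE tᶜ ht.compl (by rwa [compl_compl])
    apply h3
    rw [hval _ ht.compl, lintegral_eq_zero_iff (hmeas _ ht.compl)] at h2
    have hac : (volume : Measure ℝ) ≪ quasi_rho :=
      withDensity_absolutelyContinuous' quasi_w_meas.aemeasurable
        (Eventually.of_forall quasi_w_pos)
    filter_upwards [hac.ae_le h2] with s hs
    exact not_not.2 hs
  -- total variation continuity
  have htv : ∀ s : ℕ → ℝ, Tendsto s atTop (𝓝 0) → TVto atTop (fun k => b (s k)) ν' := by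
    intro s hs e he
    have hlim : Tendsto (fun k => (|s k| + (s k) ^ 2) * ν'.real univ) atTop (𝓝 0) := by
      have h1 : Tendsto (fun k => (|s k| + (s k) ^ 2) * ν'.real univ) atTop
          (𝓝 ((|(0 : ℝ)| + 0 ^ 2) * ν'.real univ)) := (hs.abs.add (hs.pow 2)).mul_const _
      simpa using h1
    filter_upwards [hlim.eventually (gt_mem_nhds he)] with k hk E hE
    have h1 : ν' ((fun z => b (s k) • z) ⁻¹' E)
        ≤ ENNReal.ofReal (1 + |s k| + (s k) ^ 2) * ν' E := by
      rw [hval _ ((continuous_const_smul (b (s k))).measurable hE), hval _ hE]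
      refine le_trans (le_of_eq ?_) (quasi_rho_shift _ (hmeas E hE) (s k))
      refine lintegral_congr fun r => ?_
      rw [← preimage_comp]
      congr 2
      funext z
      show b (s k) • b r • z = _
      rw [smul_smul, ← hadd]
    have h2 : ν'.real ((fun z => b (s k) • z) ⁻¹' E)
        ≤ (1 + |s k| + (s k) ^ 2) * ν'.real E := by
      rw [measureReal_def, measureReal_def]
      calc (ν' ((fun z => b (s k) • z) ⁻¹' E)).toReal
          ≤ (ENNReal.ofReal (1 + |s k| + (s k) ^ 2) * ν' E).toReal :=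
            ENNReal.toReal_mono (ENNReal.mul_ne_top ENNReal.ofReal_ne_top (measure_ne_top _ _)) h1
        _ = (1 + |s k| + (s k) ^ 2) * (ν' E).toReal := by
            rw [ENNReal.toReal_mul, ENNReal.toReal_ofReal (by positivity)]
    have h3 : ν'.real E ≤ ν'.real univ := measureReal_mono (subset_univ _)
    have h4 : 0 ≤ |s k| + (s k) ^ 2 := by positivity
    nlinarith [mul_le_mul_of_nonneg_left h3 h4]
  have hev : ∀ᶠ r in 𝓝 (0 : ℝ), μ.map (fun z => b r • z) = μ := by
    rw [eventually_iff_seq_eventually]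
    intro s hs
    exact hT ν' hfin hns s hs (htv s hs)
  obtain ⟨e, he, hball⟩ := Metric.eventually_nhds_iff.1 hev
  intro s
  obtain ⟨N, hN⟩ := exists_nat_gt (|s| / e)
  have hN1 : |s| < N * e := by rwa [div_lt_iff₀ he] at hN
  have hN0 : (0 : ℝ) < N + 1 := by positivity
  have hsmall : μ.map (fun z => b (s / (N + 1)) • z) = μ := by
    apply hball
    rw [Real.dist_eq, sub_zero, abs_div, abs_of_pos hN0, div_lt_iff₀ hN0]
    nlinarith
  have hpow : ∀ k : ℕ, μ.map (fun z => b (k * (s / (N + 1))) • z) = μ := by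
    intro k
    induction k with
    | zero =>
      have h0 : b 0 = 1 := by
        have := hadd 0 0
        rw [add_zero] at this
        exact (mul_eq_left.1 this.symm)
      simp [h0]
    | succ k ih =>
      have h1 : ((k + 1 : ℕ) : ℝ) * (s / (N + 1)) = s / (N + 1) + k * (s / (N + 1)) := by
        push_cast
        ring
      rw [h1, hadd, ← map_map_smul, ih, hsmall]
  have h := hpow (N + 1)
  have h2 : (((N + 1 : ℕ)) : ℝ) * (s / (N + 1)) = s := by
    push_cast
    field_simp
  rwa [h2] at h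

end general

end Pool.Agent.Work.MP_67388f_an
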