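import Pool.Agent.Work.MP_67388f_an.HZ.Top
import Pool.Agent.Work.MP_67388f_an.HZ.Quasi
import Pool.Agent.Work.MP_67388f_an.TV.Main

set_option autoImplicit false

namespace Pool.Agent.Work.MP_67388f_an

open MeasureTheory Filter Topology Matrix Set
open scoped ENNReal

variable {n : ℕ}

lemma classA_ne (d : SpecialLinearGroup (Fin n) ℝ) (hd : IsClassADiag d) (i : Fin n) :
    d i i ≠ 0 := by
  intro hi
  have h := d.2
  have h1 : d.1 = diagonal (fun i => d i i) := by
    ext p q
    by_cases hpq : p = q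
    · subst hpq; rw [diagonal_apply_eq]
    · rw [diagonal_apply_ne _ hpq]; exact hd.1 p q hpq
  rw [h1, det_diagonal] at h
  have h5 : ∏ i, d i i = 0 := Finset.prod_eq_zero (Finset.mem_univ i) hi
  exact zero_ne_one (h5.symm.trans h)

lemma classA_diag (d : SpecialLinearGroup (Fin n) ℝ) (hd : IsClassADiag d) :
    d.1 = diagonal (fun i => d i i) := by
  ext p q
  by_cases hpq : p = q
  · subst hpq; rw [diagonal_apply_eq]
  · rw [diagonal_apply_ne _ hpq]; exact hd.1 p q hpq

lemma classA_quot (d : SpecialLinearGroup (Fin n) ℝ) (hd : IsClassADiag d) (i k r s : Fin n)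
    (h : |d i i * d s s| = |d k k * d r r|) : d i i * d s s = d k k * d r r := by
  classical
  have hne := classA_ne d hd
  have hprod : ∀ (m m' : Fin n → ℤ), ∏ j, d j j ^ (m + m') j = (∏ j, d j j ^ m j) * ∏ j, d j j ^ m' j := by
    intro m m'
    rw [← Finset.prod_mul_distrib]
    exact Finset.prod_congr rfl fun j _ => zpow_add₀ (hne j) _ _
  have hsingle : ∀ (i : Fin n) (c : ℤ), ∏ j, d j j ^ (Pi.single i c : Fin n → ℤ) j = d i i ^ c := by
    intro i c
    rw [Finset.prod_eq_single i]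
    · rw [Pi.single_eq_same]
    · intro j _ hj
      rw [Pi.single_eq_of_ne hj, zpow_zero]
    · intro h; exact absurd (Finset.mem_univ _) h
  have h2 := hd.2 (((Pi.single i 1 + Pi.single s 1) + Pi.single k (-1)) + Pi.single r (-1))
  rw [hprod, hprod, hprod, hsingle, hsingle, hsingle, hsingle] at h2
  simp only [zpow_one, _root_.zpow_neg_one] at h2
  have hk := hne k
  have hr := hne r
  have h3 : |d i i * d s s * (d k k)⁻¹ * (d r r)⁻¹| = 1 := by
    rw [mul_assoc, ← mul_inv, abs_mul, h, abs_inv, mul_inv_cancel₀]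
    exact abs_ne_zero.2 (mul_ne_zero hk hr)
  have h4 := h2 h3
  field_simp at h4
  exact h4

lemma classA_of_pos (d : SpecialLinearGroup (Fin n) ℝ) (hd : IsPosDiag d) : IsClassADiag d := by
  refine ⟨hd.1, fun m h => ?_⟩
  rwa [abs_of_pos (Finset.prod_pos fun i _ => zpow_pos (hd.2 i) _)] at h

section exp

attribute [local instance] Matrix.linftyOpNormedRing Matrix.linftyOpNormedAlgebra
attribute [local instance] Matrix.linftyOpNormedAddCommGroup Matrix.linftyOpNormedSpace

lemma expcurve_cont (Y : Matrix (Fin n) (Fin n) ℝ) (b : ℝ → SpecialLinearGroup (Fin n) ℝ)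
    (hb : ∀ s, (b s).1 = NormedSpace.exp (s • Y)) : Continuous b := by
  have hind : IsInducing (fun A : SpecialLinearGroup (Fin n) ℝ =>
    (A : Matrix (Fin n) (Fin n) ℝ)) := SpecialLinearGroup.isClosedEmbedding_val.isInducing
  rw [hind.continuous_iff]
  have h : ((fun A : SpecialLinearGroup (Fin n) ℝ => (A : Matrix (Fin n) (Fin n) ℝ)) ∘ b)
      = fun s : ℝ => NormedSpace.exp (s • Y) := funext fun s => hb s
  rw [h]
  exact top_exp_cont.comp (continuous_id.smul continuous_const)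

lemma expcurve_add (Y : Matrix (Fin n) (Fin n) ℝ) (b : ℝ → SpecialLinearGroup (Fin n) ℝ)
    (hb : ∀ s, (b s).1 = NormedSpace.exp (s • Y)) (s t : ℝ) : b (s + t) = b s * b t := by
  apply Subtype.ext
  show (b (s + t)).1 = (b s).1 * (b t).1
  rw [hb, hb, hb, add_smul]
  exact Matrix.exp_add_of_commute _ _ (((Commute.refl Y).smul_left s).smul_right t)

end exp

section main

variable {H : Type*} [Group H] [TopologicalSpace H] [IsTopologicalGroup H]
variable {X : Type*} [TopologicalSpace X] [LocallyCompactSpace X] [T2Space X]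
  [SecondCountableTopology X] [MeasurableSpace X] [BorelSpace X]

/-- Singular along `b`, or invariant. -/
theorem along_main {L : Type*} [Group L] [TopologicalSpace L] [IsTopologicalGroup L]
    (κ : L →* SpecialLinearGroup (Fin n) ℝ) (hκ : IsClosedEmbedding κ)
    [MulAction (L × H) X] [ContinuousSMul (L × H) X]
    (A : Subgroup (L × H)) (hA : ∀ a ∈ A, IsClassADiag (κ a.1))
    (μ : Measure X) [IsProbabilityMeasure μ]
    (hμ : ∀ a ∈ A, μ.map (fun z => a • z) = μ)
    (herg : ∀ s : Set X, MeasurableSet s → (∀ a ∈ A, (fun z => a • z) ⁻¹' s =ᵐ[μ] s) →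
      μ s = 0 ∨ μ sᶜ = 0)
    (b : ℝ → L) (hb : Continuous b) (hadd : ∀ s t, b (s + t) = b s * b t) :
    (∀ s, μ.map (fun z => (b s, (1 : H)) • z) = μ) ∨ SingAlong (fun s => (b s, (1 : H))) μ := by
  refine sing_or_inv (G := L × H) (fun s => (b s, (1 : H))) (hb.prodMk continuous_const) ?_ μ ?_
  · intro s t
    rw [hadd]
    apply Prod.ext
    · rfl
    · exact (mul_one (1 : H)).symm
  · intro ν hν hns s hs htv
    have hbs : Tendsto (fun k => b (s k)) atTop (𝓝 1) := by
      have h0 : b 0 = 1 := by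
        have := hadd 0 0
        rw [add_zero] at this
        exact (mul_eq_left.1 this.symm)
      have := (hb.tendsto 0).comp hs
      rwa [h0] at this
    exact tv_rigid_abs (G := L × H) κ (MonoidHom.inl L H) (MonoidHom.fst L H)
      hκ (continuous_id.prodMk continuous_const)
      (by
        intro g u
        apply Prod.ext
        · rfl
        · show g.2 * 1 * g.2⁻¹ = 1
          rw [mul_one, mul_inv_cancel])
      A μ hμ herg (fun a ha i k hik => (hA a ha).1 i k hik)
      (fun i k r s h a ha => classA_quot _ (hA a ha) i k r s (h a ha)) ν hns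
      (fun k => b (s k)) hbs htv

/-- The subgroup of `SL(n, ℝ)` of elements of `L` preserving `μ`. -/
def stabL (L : Subgroup (SpecialLinearGroup (Fin n) ℝ)) (H : Type*) [Group H]
    [TopologicalSpace H] [MulAction (L × H) X] [ContinuousSMul (L × H) X]
    (μ : Measure X) : Subgroup (SpecialLinearGroup (Fin n) ℝ) :=
  ((stb (G := L × H) μ).comap (MonoidHom.inl L H)).map L.subtype

omit [IsTopologicalGroup H] [LocallyCompactSpace X] [T2Space X] [SecondCountableTopology X] in
lemma mem_stabL (L : Subgroup (SpecialLinearGroup (Fin n) ℝ))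
    [MulAction (L × H) X] [ContinuousSMul (L × H) X] (μ : Measure X)
    (g : SpecialLinearGroup (Fin n) ℝ) :
    g ∈ stabL L H μ ↔ ∃ u : L, (u : SpecialLinearGroup (Fin n) ℝ) = g ∧
      μ.map (fun z => (u, (1 : H)) • z) = μ := by
  constructor
  · rintro ⟨u, hu, rfl⟩
    exact ⟨u, rfl, hu⟩
  · rintro ⟨u, rfl, hu⟩
    exact ⟨u, hu, rfl⟩

lemma stabL_closed (L : Subgroup (SpecialLinearGroup (Fin n) ℝ))
    (hL : IsClosed (L : Set (SpecialLinearGroup (Fin n) ℝ)))
    [MulAction (L × H) X] [ContinuousSMul (L × H) X] (μ : Measure X) [IsProbabilityMeasure μ] :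
    IsClosed (stabL L H μ : Set (SpecialLinearGroup (Fin n) ℝ)) := by
  have h1 : IsClosed ((MonoidHom.inl L H) ⁻¹' (stb (G := L × H) μ : Set (L × H))) :=
    (stb_closed μ).preimage (continuous_id.prodMk continuous_const)
  exact hL.isClosedEmbedding_subtypeVal.isClosedMap _ h1

end main

/-- A one-parameter unipotent group scaled by `a'`. -/
lemma unip_pos (S : Subgroup (SpecialLinearGroup (Fin n) ℝ))
    (hcl : IsClosed (S : Set (SpecialLinearGroup (Fin n) ℝ))) (a : SpecialLinearGroup (Fin n) ℝ)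
    (ha : IsClassADiag a)
    (Y : Matrix (Fin n) (Fin n) ℝ) (b : ℝ → SpecialLinearGroup (Fin n) ℝ)
    (hb : ∀ s, (b s).1 = NormedSpace.exp (s • Y)) (hSa : ∀ u ∈ S, a * u * a⁻¹ ∈ S)
    (hSb : ∀ s, b s ∈ S) (i j : Fin n) (hij : Y i j ≠ 0)
    (hw : 0 < Real.log (a i i) - Real.log (a j j)) :
    ∃ (Z : Matrix (Fin n) (Fin n) ℝ) (c : ℝ), Z ≠ 0 ∧ IsNilpotent Z ∧ 1 < |c| ∧
      a.1 * Z = c • (Z * a.1) ∧ ∀ s : ℝ, ∃ u ∈ S, u.1 = NormedSpace.exp (s • Z) := by
  classical
  set α : Fin n → ℝ := fun i => a i i with hα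
  have hne : ∀ i, α i ≠ 0 := classA_ne a ha
  have had : a.1 = diagonal α := classA_diag a ha
  obtain ⟨p, hp, hmax⟩ := Finset.exists_max_image
    (Finset.univ.filter fun p : Fin n × Fin n => Y p.1 p.2 ≠ 0)
    (fun p => Real.log (α p.1) - Real.log (α p.2)) ⟨(i, j), by simpa using hij⟩
  set M : ℝ := Real.log (α p.1) - Real.log (α p.2) with hM
  have hMpos : 0 < M := lt_of_lt_of_le hw (hmax (i, j) (by simpa using hij))
  have hYp : Y p.1 p.2 ≠ 0 := by simpa using hp
  set c : ℝ := α p.1 / α p.2 with hc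
  have hcabs : 1 < |c| := by
    rw [hc, abs_div, one_lt_div (abs_pos.2 (hne _)), ← Real.log_lt_log_iff (abs_pos.2 (hne _))
      (abs_pos.2 (hne _)), Real.log_abs, Real.log_abs]
    linarith
  refine ⟨topPart α M Y, c, ?_, topPart_nilpotent α M hMpos Y, hcabs, ?_, ?_⟩
  · intro h
    have h1 := congrFun (congrFun h p.1) p.2
    rw [topPart, Matrix.of_apply, if_pos rfl] at h1
    exact hYp h1
  · rw [had]
    ext q r
    rw [diagonal_mul, Matrix.smul_apply, mul_diagonal, smul_eq_mul, topPart, Matrix.of_apply]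
    by_cases h : Real.log (α q) - Real.log (α r) = M
    · rw [if_pos h]
      have h2 : |α q * α p.2| = |α r * α p.1| := by
        rw [abs_mul, abs_mul]
        apply Real.log_injOn_pos (Set.mem_Ioi.2 (mul_pos (abs_pos.2 (hne _)) (abs_pos.2 (hne _))))
          (Set.mem_Ioi.2 (mul_pos (abs_pos.2 (hne _)) (abs_pos.2 (hne _))))
        rw [Real.log_mul (abs_pos.2 (hne _)).ne' (abs_pos.2 (hne _)).ne',
          Real.log_mul (abs_pos.2 (hne _)).ne' (abs_pos.2 (hne _)).ne', Real.log_abs, Real.log_abs,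
          Real.log_abs, Real.log_abs]
        linarith
      have h3 := classA_quot a ha q r p.1 p.2 h2
      have h4 : α q = c * α r := by
        rw [hc, div_mul_eq_mul_div, eq_div_iff (hne _)]
        show a q q * a p.2 p.2 = a p.1 p.1 * a r r
        rw [h3, mul_comm]
      rw [h4]
      ring
    · rw [if_neg h]
      ring
  · intro s
    exact top_exists S hcl α a had Y b hb hSa hSb M
      (fun q r hqr => hmax (q, r) (by simpa using hqr)) s

section main

variable {H : Type*} [Group H] [TopologicalSpace H] [IsTopologicalGroup H]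
variable {X : Type*} [TopologicalSpace X] [LocallyCompactSpace X] [T2Space X]
  [SecondCountableTopology X] [MeasurableSpace X] [BorelSpace X]

theorem unip_of_inv (L : Subgroup (SpecialLinearGroup (Fin n) ℝ))
    (hL : IsClosed (L : Set (SpecialLinearGroup (Fin n) ℝ)))
    [MulAction (L × H) X] [ContinuousSMul (L × H) X]
    (μ : Measure X) [IsProbabilityMeasure μ]
    (a : L × H) (haμ : μ.map (fun z => a • z) = μ)
    (hA : IsClassADiag (a.1 : SpecialLinearGroup (Fin n) ℝ))
    (Y : Matrix (Fin n) (Fin n) ℝ) (b : ℝ → L)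
    (hb : ∀ s, (b s : SpecialLinearGroup (Fin n) ℝ).1 = NormedSpace.exp (s • Y))
    (hinv : ∀ s, μ.map (fun z => (b s, (1 : H)) • z) = μ)
    (hcomm : (a.1 : SpecialLinearGroup (Fin n) ℝ).1 * Y
      ≠ Y * (a.1 : SpecialLinearGroup (Fin n) ℝ).1) :
    ∃ (Z : Matrix (Fin n) (Fin n) ℝ) (c : ℝ), Z ≠ 0 ∧ IsNilpotent Z ∧ |c| ≠ 1 ∧
      (a.1 : SpecialLinearGroup (Fin n) ℝ).1 * Z
        = c • (Z * (a.1 : SpecialLinearGroup (Fin n) ℝ).1) ∧
      ∀ s : ℝ, ∃ u : L, (u : SpecialLinearGroup (Fin n) ℝ).1 = NormedSpace.exp (s • Z) ∧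
        μ.map (fun z => (u, (1 : H)) • z) = μ := by
  classical
  set a₁ : SpecialLinearGroup (Fin n) ℝ := (a.1 : SpecialLinearGroup (Fin n) ℝ) with ha₁
  have hne := classA_ne a₁ hA
  have had := classA_diag a₁ hA
  set S := stabL L H μ with hS
  have hcl : IsClosed (S : Set (SpecialLinearGroup (Fin n) ℝ)) := stabL_closed L hL μ
  have hSb : ∀ s, (b s : SpecialLinearGroup (Fin n) ℝ) ∈ S := fun s =>
    (mem_stabL L μ _).2 ⟨b s, rfl, hinv s⟩
  have hast : a ∈ stb (G := L × H) μ := haμ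
  have hconj : ∀ a' : L × H, a' ∈ stb (G := L × H) μ → ∀ u ∈ S,
      (a'.1 : SpecialLinearGroup (Fin n) ℝ) * u * (a'.1 : SpecialLinearGroup (Fin n) ℝ)⁻¹ ∈ S := by
    intro a' ha' u hu
    obtain ⟨u', rfl, hu'⟩ := (mem_stabL L μ u).1 hu
    refine (mem_stabL L μ _).2 ⟨a'.1 * u' * a'.1⁻¹, rfl, ?_⟩
    have h1 : a' * (u', (1 : H)) * a'⁻¹ ∈ stb (G := L × H) μ :=
      mul_mem (mul_mem ha' hu') (inv_mem ha')
    have h2 : a' * (u', (1 : H)) * a'⁻¹ = (a'.1 * u' * a'.1⁻¹, (1 : H)) := by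
      apply Prod.ext
      · rfl
      · show a'.2 * 1 * a'.2⁻¹ = 1
        rw [mul_one, mul_inv_cancel]
    rw [h2] at h1
    exact h1
  -- a nonzero weight
  obtain ⟨i, j, hij, hw⟩ : ∃ i j, Y i j ≠ 0 ∧ Real.log (a₁ i i) - Real.log (a₁ j j) ≠ 0 := by
    by_contra hcon
    push Not at hcon
    apply hcomm
    rw [had]
    ext i j
    rw [diagonal_mul, mul_diagonal]
    by_cases h : Y i j = 0
    · rw [h, mul_zero, zero_mul]
    · have h1 := hcon i j h
      have h2 : |a₁ i i * a₁ i i| = |a₁ j j * a₁ i i| := by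
        have h3 : |a₁ i i| = |a₁ j j| := by
          apply Real.log_injOn_pos (Set.mem_Ioi.2 (abs_pos.2 (hne _)))
            (Set.mem_Ioi.2 (abs_pos.2 (hne _)))
          rw [Real.log_abs, Real.log_abs]
          linarith
        rw [abs_mul, abs_mul, h3]
      have h4 := classA_quot a₁ hA i j i i h2
      have h5 : a₁ i i = a₁ j j := mul_right_cancel₀ (hne i) h4
      rw [h5, mul_comm]
  rcases lt_or_gt_of_ne hw with hneg | hpos
  · -- use the inverse
    have hinvd : (a₁⁻¹).1 = diagonal (fun i => (a₁ i i)⁻¹) := by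
      have h1 : a₁.1 * (a₁⁻¹).1 = 1 := congrArg Subtype.val (mul_inv_cancel a₁)
      have h2 : (diagonal (fun i => (a₁ i i)⁻¹) : Matrix (Fin n) (Fin n) ℝ) * a₁.1 = 1 := by
        refine (congrArg (fun N => (diagonal (fun i => (a₁ i i)⁻¹) : Matrix (Fin n) (Fin n) ℝ) * N)
          had).trans ?_
        show (diagonal (fun i => (a₁ i i)⁻¹) : Matrix (Fin n) (Fin n) ℝ)
          * diagonal (fun i => a₁ i i) = 1
        rw [diagonal_mul_diagonal, ← diagonal_one]
        congr 1
        funext i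
        exact inv_mul_cancel₀ (hne i)
      calc (a₁⁻¹).1 = (diagonal (fun i => (a₁ i i)⁻¹) * a₁.1) * (a₁⁻¹).1 := by
            rw [h2, one_mul]
        _ = diagonal (fun i => (a₁ i i)⁻¹) := by rw [mul_assoc, h1, mul_one]
    have hinve : ∀ i, a₁⁻¹ i i = (a₁ i i)⁻¹ := by
      intro i
      show (a₁⁻¹).1 i i = _
      rw [hinvd, diagonal_apply_eq]
    have hclass' : IsClassADiag a₁⁻¹ := by
      refine ⟨?_, ?_⟩
      · intro i j hij
        show (a₁⁻¹).1 i j = 0
        rw [hinvd]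
        exact diagonal_apply_ne _ hij
      · intro m hm
        have h1 : ∏ i, a₁⁻¹ i i ^ m i = ∏ i, a₁ i i ^ (-m) i := by
          refine Finset.prod_congr rfl fun i _ => ?_
          rw [hinve, Pi.neg_apply, _root_.inv_zpow, _root_.zpow_neg]
        rw [h1] at hm ⊢
        exact hA.2 _ hm
    obtain ⟨Z, c, hZ, hnil, hc, hcom, hex⟩ := unip_pos S hcl a₁⁻¹ hclass' Y
      (fun s => (b s : SpecialLinearGroup (Fin n) ℝ)) hb (fun u hu => hconj a⁻¹ (inv_mem hast) u hu)
      hSb i j hij (by rw [hinve, hinve, Real.log_inv, Real.log_inv]; linarith)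
    have hc0 : c ≠ 0 := by
      rintro rfl
      rw [abs_zero] at hc
      linarith
    refine ⟨Z, c⁻¹, hZ, hnil, ?_, ?_, ?_⟩
    · rw [abs_inv]
      intro h
      have h2 : |c| = 1 := by rw [← inv_inv |c|, h, inv_one]
      linarith
    · have h1 : a₁.1 * (a₁⁻¹).1 = 1 := congrArg Subtype.val (mul_inv_cancel a₁)
      have h2 : (a₁⁻¹).1 * a₁.1 = 1 := congrArg Subtype.val (inv_mul_cancel a₁)
      have h3 : Z * a₁.1 = c • (a₁.1 * Z) := by
        calc Z * a₁.1 = (a₁.1 * (a₁⁻¹).1) * Z * a₁.1 := by rw [h1, one_mul]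
          _ = a₁.1 * ((a₁⁻¹).1 * Z) * a₁.1 := by rw [mul_assoc a₁.1]
          _ = a₁.1 * (c • (Z * (a₁⁻¹).1)) * a₁.1 := by rw [hcom]
          _ = c • (a₁.1 * Z * ((a₁⁻¹).1 * a₁.1)) := by
              rw [mul_smul_comm, smul_mul_assoc]
              congr 1
              noncomm_ring
          _ = c • (a₁.1 * Z) := by rw [h2, mul_one]
      rw [h3, smul_smul, inv_mul_cancel₀ hc0, one_smul]
    · intro s
      obtain ⟨u, hu, hue⟩ := hex s
      obtain ⟨u', rfl, hu'⟩ := (mem_stabL L μ u).1 hu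
      exact ⟨u', hue, hu'⟩
  · obtain ⟨Z, c, hZ, hnil, hc, hcom, hex⟩ := unip_pos S hcl a₁ hA Y
      (fun s => (b s : SpecialLinearGroup (Fin n) ℝ)) hb (fun u hu => hconj a hast u hu)
      hSb i j hij hpos
    refine ⟨Z, c, hZ, hnil, hc.ne', hcom, ?_⟩
    intro s
    obtain ⟨u, hu, hue⟩ := hex s
    obtain ⟨u', rfl, hu'⟩ := (mem_stabL L μ u).1 hu
    exact ⟨u', hue, hu'⟩

end main

end Pool.Agent.Work.MP_67388f_an
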