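import Pool.Agent.Work.MP_67388f_an.DefsCartan

set_option autoImplicit false

namespace Pool.Agent.Work.MP_67388f_an

open MeasureTheory Filter Topology Matrix

/-- `μ` is singular along the one-parameter group `b`: for every finite Borel measure `ν` (no
invariance is assumed) there is a Borel set `E` carrying `μ` such that `(b s) ν` gives no mass to
`E` for Lebesgue almost all `s`. -/
def SingAlong {G X : Type*} [MeasurableSpace X] [SMul G X] (b : ℝ → G) (μ : Measure X) : Prop :=
  ∀ ν : Measure X, IsFiniteMeasure ν → ∃ E : Set X, MeasurableSet E ∧ μ Eᶜ = 0 ∧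
    ∀ᵐ s : ℝ, ν ((fun z => b s • z) ⁻¹' E) = 0

/-- `d` is a diagonal matrix of class `𝒜`: a product of integer powers of its eigenvalues has
absolute value one only if it is equal to one. -/
def IsClassADiag {n : ℕ} (d : SpecialLinearGroup (Fin n) ℝ) : Prop :=
  (∀ i j, i ≠ j → d i j = 0) ∧
    ∀ m : Fin n → ℤ, |∏ i, d i i ^ m i| = 1 → ∏ i, d i i ^ m i = 1

end Pool.Agent.Work.MP_67388f_an
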