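import Mathlib
import Pool.Agent.Work.MP_67388f_an.HZ.Defs

set_option autoImplicit false

namespace Pool.Agent.Work.MP_67388f_an

open MeasureTheory Filter Topology Matrix

section matrices

variable {n : ℕ}

namespace CellAux

/-- projection to the coordinates in `I` -/
noncomputable def e (I : Finset (Fin n)) : Matrix (Fin n) (Fin n) ℝ :=
  diagonal fun i => if i ∈ I then 1 else 0

/-- projection to the coordinates outside `I` -/
noncomputable def f (I : Finset (Fin n)) : Matrix (Fin n) (Fin n) ℝ :=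
  diagonal fun i => if i ∈ I then 0 else 1

theorem ee (I : Finset (Fin n)) : e I * e I = e I := by
  unfold e; rw [diagonal_mul_diagonal]; congr 1; funext i; split_ifs <;> simp

theorem ff (I : Finset (Fin n)) : f I * f I = f I := by
  unfold f; rw [diagonal_mul_diagonal]; congr 1; funext i; split_ifs <;> simp

theorem ef (I : Finset (Fin n)) : e I * f I = 0 := by
  unfold e f; rw [diagonal_mul_diagonal, ← diagonal_zero]; congr 1; funext i; split_ifs <;> simp

theorem fe (I : Finset (Fin n)) : f I * e I = 0 := by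
  unfold e f; rw [diagonal_mul_diagonal, ← diagonal_zero]; congr 1; funext i; split_ifs <;> simp

theorem eaddf (I : Finset (Fin n)) : e I + f I = 1 := by
  unfold e f; rw [diagonal_add, ← diagonal_one]; congr 1; funext i; split_ifs <;> simp

/-- the block of `M`, completed by the identity -/
noncomputable def h (I : Finset (Fin n)) (M : Matrix (Fin n) (Fin n) ℝ) :
    Matrix (Fin n) (Fin n) ℝ := e I * M * e I + f I

/-- inverse of `h` -/
noncomputable def hi (I : Finset (Fin n)) (M : Matrix (Fin n) (Fin n) ℝ) :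
    Matrix (Fin n) (Fin n) ℝ := (h I M).det⁻¹ • (h I M).adjugate

/-- the unipotent part minus one -/
noncomputable def X (I : Finset (Fin n)) (M : Matrix (Fin n) (Fin n) ℝ) :
    Matrix (Fin n) (Fin n) ℝ := hi I M * (e I * M * f I)

variable (I : Finset (Fin n)) (M : Matrix (Fin n) (Fin n) ℝ)

theorem h_hi (hd : (h I M).det ≠ 0) : h I M * hi I M = 1 := by
  unfold hi
  rw [Matrix.mul_smul, Matrix.mul_adjugate, smul_smul, inv_mul_cancel₀ hd, one_smul]

theorem hi_h (hd : (h I M).det ≠ 0) : hi I M * h I M = 1 := by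
  unfold hi
  rw [Matrix.smul_mul, Matrix.adjugate_mul, smul_smul, inv_mul_cancel₀ hd, one_smul]

theorem h_e : h I M * e I = e I * M * e I := by
  unfold h
  rw [add_mul, fe, add_zero, mul_assoc (e I * M), ee]

theorem e_h : e I * h I M = e I * M * e I := by
  unfold h
  rw [mul_add, ef, add_zero, ← mul_assoc, ← mul_assoc, ee]

theorem hi_e (hd : (h I M).det ≠ 0) : hi I M * e I = e I * hi I M := by
  calc hi I M * e I = hi I M * e I * (h I M * hi I M) := by rw [h_hi I M hd, mul_one]
    _ = hi I M * (e I * h I M) * hi I M := by simp only [mul_assoc]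
    _ = hi I M * (h I M * e I) * hi I M := by rw [e_h, h_e]
    _ = (hi I M * h I M) * e I * hi I M := by simp only [mul_assoc]
    _ = e I * hi I M := by rw [hi_h I M hd, one_mul]

theorem e_X (hd : (h I M).det ≠ 0) : e I * X I M = X I M := by
  unfold X
  calc e I * (hi I M * (e I * M * f I)) = (e I * hi I M) * (e I * M * f I) := by
        simp only [mul_assoc]
    _ = hi I M * e I * (e I * M * f I) := by rw [hi_e I M hd]
    _ = hi I M * ((e I * e I) * M * f I) := by simp only [mul_assoc]
    _ = hi I M * (e I * M * f I) := by rw [ee]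

theorem X_f : X I M * f I = X I M := by
  unfold X
  rw [mul_assoc, mul_assoc (e I * M), ff]

theorem X_e : X I M * e I = 0 := by
  rw [← X_f, mul_assoc, fe, mul_zero]

theorem f_X (hd : (h I M).det ≠ 0) : f I * X I M = 0 := by
  rw [← e_X I M hd, ← mul_assoc, fe, zero_mul]

theorem X_X (hd : (h I M).det ≠ 0) : X I M * X I M = 0 := by
  conv_lhs => rw [← e_X I M hd]
  rw [e_X I M hd]
  calc X I M * X I M = X I M * (e I * X I M) := by rw [e_X I M hd]
    _ = 0 := by rw [← mul_assoc, X_e, zero_mul]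

theorem X_entry (hd : (h I M).det ≠ 0) (i j : Fin n) (hij : X I M i j ≠ 0) : i ∈ I ∧ j ∉ I := by
  constructor
  · by_contra hi'
    have := congrFun (congrFun (f_X I M hd) i) j
    unfold f at this
    rw [diagonal_mul] at this
    simp [hi'] at this
    exact hij this
  · intro hj
    have := congrFun (congrFun (X_e I M) i) j
    unfold e at this
    rw [mul_diagonal] at this
    simp [hj] at this
    exact hij this

theorem block_zero (hd : (h I M).det ≠ 0) : e I * (M * (1 - X I M)) * f I = 0 := by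
  have h1 : e I * M * X I M = e I * M * f I := by
    calc e I * M * X I M = e I * M * (e I * X I M) := by rw [e_X I M hd]
      _ = (e I * M * e I) * X I M := by simp only [mul_assoc]
      _ = h I M * (e I * X I M) := by rw [← h_e, mul_assoc]
      _ = h I M * X I M := by rw [e_X I M hd]
      _ = (h I M * hi I M) * (e I * M * f I) := by unfold X; simp only [mul_assoc]
      _ = e I * M * f I := by rw [h_hi I M hd, one_mul]
  calc e I * (M * (1 - X I M)) * f I = e I * M * f I - e I * M * X I M * f I := by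
        noncomm_ring
    _ = 0 := by rw [h1, mul_assoc (e I * M), ff, sub_self]

theorem entry_zero (hd : (h I M).det ≠ 0) (i j : Fin n) (hi' : i ∈ I) (hj : j ∉ I) :
    (M * (1 - X I M)) i j = 0 := by
  have := congrFun (congrFun (block_zero I M hd) i) j
  unfold e f at this
  rw [mul_diagonal, diagonal_mul] at this
  simpa [hi', hj] using this

theorem unip (S : Subgroup (SpecialLinearGroup (Fin n) ℝ))
    (hS : ∀ i ∈ I, ∀ j ∉ I, ∀ (hij : i ≠ j) (s : ℝ), SpecialLinearGroup.transvection hij s ∈ S)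
    (Z : Matrix (Fin n) (Fin n) ℝ) (hZ : ∀ i j, Z i j ≠ 0 → i ∈ I ∧ j ∉ I) :
    ∃ u ∈ S, u.1 = 1 + Z := by
  have key : ∀ P : Finset (Fin n × Fin n), (∀ p ∈ P, p.1 ∈ I ∧ p.2 ∉ I) →
      ∃ u ∈ S, u.1 = 1 + ∑ p ∈ P, Matrix.single p.1 p.2 (Z p.1 p.2) := by
    intro P
    induction P using Finset.induction_on with
    | empty => intro _; exact ⟨1, S.one_mem, by simp⟩
    | insert p P hp ih =>
      intro hP
      obtain ⟨u, hu, hu1⟩ := ih fun q hq => hP q (Finset.mem_insert_of_mem hq)
      obtain ⟨hp1, hp2⟩ := hP p (Finset.mem_insert_self _ _)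
      have hne : p.1 ≠ p.2 := fun hh => hp2 (hh ▸ hp1)
      refine ⟨u * SpecialLinearGroup.transvection hne (Z p.1 p.2),
        S.mul_mem hu (hS _ hp1 _ hp2 hne _), ?_⟩
      have hz : (∑ q ∈ P, Matrix.single q.1 q.2 (Z q.1 q.2)) * Matrix.single p.1 p.2 (Z p.1 p.2)
          = 0 := by
        rw [Finset.sum_mul]
        apply Finset.sum_eq_zero
        intro q hq
        apply Matrix.single_mul_single_of_ne
        intro hh
        exact (hP q (Finset.mem_insert_of_mem hq)).2 (hh ▸ hp1)
      change u.1 * (SpecialLinearGroup.transvection hne (Z p.1 p.2)).1 = _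
      rw [hu1, SpecialLinearGroup.transvection_coe, Finset.sum_insert hp, mul_add, mul_one, add_mul,
        one_mul, hz, add_zero]
      abel
  obtain ⟨u, hu, hu1⟩ := key (I ×ˢ Iᶜ) (by
    intro p hp
    rw [Finset.mem_product, Finset.mem_compl] at hp
    exact hp)
  refine ⟨u, hu, ?_⟩
  rw [hu1]
  congr 1
  ext i j
  rw [Matrix.sum_apply]
  by_cases hij : i ∈ I ∧ j ∉ I
  · rw [Finset.sum_eq_single (i, j)]
    · simp
    · intro b _ hb
      rw [Matrix.single_apply]
      split_ifs with hh
      · exact absurd (Prod.ext hh.1 hh.2) hb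
      · rfl
    · intro hh
      exact absurd (by rw [Finset.mem_product, Finset.mem_compl]; exact hij) hh
  · have hz : Z i j = 0 := by
      by_contra hne
      exact hij (hZ i j hne)
    rw [hz]
    apply Finset.sum_eq_zero
    intro b hb
    rw [Finset.mem_product, Finset.mem_compl] at hb
    rw [Matrix.single_apply]
    split_ifs with hh
    · exact absurd (by rw [← hh.1, ← hh.2]; exact hb) hij
    · rfl

theorem nhds_box (V : Set (SpecialLinearGroup (Fin n) ℝ)) (hV : V ∈ 𝓝 1) :
    ∃ d : ℝ, 0 < d ∧ ∀ q : SpecialLinearGroup (Fin n) ℝ,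
      (∀ i j, |q.1 i j - (1 : Matrix (Fin n) (Fin n) ℝ) i j| < d) → q ∈ V := by
  have hind : IsInducing (fun A : SpecialLinearGroup (Fin n) ℝ => (A : Matrix (Fin n) (Fin n) ℝ)) :=
    SpecialLinearGroup.isClosedEmbedding_val.isInducing
  rw [hind.nhds_eq_comap, Filter.mem_comap] at hV
  obtain ⟨W, hW, hWV⟩ := hV
  obtain ⟨d, hd, hball⟩ := (@Metric.mem_nhds_iff (Fin n → Fin n → ℝ) _
    (1 : Matrix (Fin n) (Fin n) ℝ) W).1 hW
  refine ⟨d, hd, fun q hq => hWV ?_⟩
  apply hball
  rw [Metric.mem_ball, dist_pi_lt_iff hd]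
  intro i
  rw [dist_pi_lt_iff hd]
  intro j
  rw [Real.dist_eq]
  exact hq i j

theorem h_one : h I (1 : Matrix (Fin n) (Fin n) ℝ) = 1 := by
  unfold h; rw [mul_one, ee, eaddf]

theorem X_one : X I (1 : Matrix (Fin n) (Fin n) ℝ) = 0 := by
  unfold X; rw [mul_one, ef, mul_zero]

theorem cont_h : Continuous fun g : SpecialLinearGroup (Fin n) ℝ => h I g.1 := by
  unfold h
  exact ((continuous_const.mul continuous_subtype_val).mul continuous_const).add continuous_const

theorem cont_X : ContinuousAt (fun g : SpecialLinearGroup (Fin n) ℝ => X I g.1) 1 := by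
  unfold X hi
  have h1 : ContinuousAt (fun g : SpecialLinearGroup (Fin n) ℝ => (h I g.1).det⁻¹) 1 := by
    apply ContinuousAt.inv₀
    · exact (cont_h I).matrix_det.continuousAt
    · show (h I (1 : Matrix (Fin n) (Fin n) ℝ)).det ≠ 0
      rw [h_one, det_one]; exact one_ne_zero
  have h2 : ContinuousAt (fun g : SpecialLinearGroup (Fin n) ℝ => (h I g.1).adjugate) 1 :=
    (cont_h I).matrix_adjugate.continuousAt
  have h3 : Continuous (fun g : SpecialLinearGroup (Fin n) ℝ => e I * g.1 * f I) :=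
    (continuous_const.mul continuous_subtype_val).mul continuous_const
  exact (h1.smul h2).mul h3.continuousAt

end CellAux

open CellAux in
/-- The big cell near the identity, for the parabolic defined by the index set `I`. -/
theorem cell (I : Finset (Fin n)) (α : Fin n → ℝ) (hα : ∀ i, 0 < α i)
    (hI : ∀ i ∈ I, ∀ j ∈ I, α i = α j) (hIc : ∀ i ∉ I, ∀ j ∉ I, α i = α j)
    (hle : ∀ i ∈ I, ∀ j ∉ I, α j ≤ α i) (a : SpecialLinearGroup (Fin n) ℝ)
    (ha : a.1 = diagonal α) (S : Subgroup (SpecialLinearGroup (Fin n) ℝ))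
    (hS : ∀ i ∈ I, ∀ j ∉ I, ∀ (hij : i ≠ j) (s : ℝ), SpecialLinearGroup.transvection hij s ∈ S)
    (V : Set (SpecialLinearGroup (Fin n) ℝ)) (hV : V ∈ 𝓝 1) :
    ∀ᶠ g in 𝓝 (1 : SpecialLinearGroup (Fin n) ℝ), ∃ p u : SpecialLinearGroup (Fin n) ℝ,
      g = p * u ∧ u ∈ S ∧ ∀ k : ℕ, a ^ k * p * (a ^ k)⁻¹ ∈ V := by
  obtain ⟨d, hd, hbox⟩ := nhds_box V hV
  have hdet : ∀ᶠ g in 𝓝 (1 : SpecialLinearGroup (Fin n) ℝ), (h I g.1).det ≠ 0 := by
    apply (cont_h I).matrix_det.continuousAt.eventually_ne
    show (h I (1 : Matrix (Fin n) (Fin n) ℝ)).det ≠ 0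
    rw [h_one, det_one]; exact one_ne_zero
  have hcont : ContinuousAt (fun g : SpecialLinearGroup (Fin n) ℝ => g.1 * (1 - X I g.1)) 1 :=
    (continuous_subtype_val.continuousAt).mul (continuousAt_const.sub (cont_X I))
  have hsmall : ∀ᶠ g in 𝓝 (1 : SpecialLinearGroup (Fin n) ℝ), ∀ i j,
      |(g.1 * (1 - X I g.1)) i j - (1 : Matrix (Fin n) (Fin n) ℝ) i j| < d := by
    rw [Filter.eventually_all]
    intro i
    rw [Filter.eventually_all]
    intro j
    have h1 : ContinuousAt (fun g : SpecialLinearGroup (Fin n) ℝ =>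
        (g.1 * (1 - X I g.1)) i j) 1 :=
      ((continuous_apply_apply i j).continuousAt (x := _)).comp hcont
    have h2 : ((1 : SpecialLinearGroup (Fin n) ℝ).1 * (1 - X I (1 : SpecialLinearGroup (Fin n) ℝ).1)) i j
        = (1 : Matrix (Fin n) (Fin n) ℝ) i j := by
      have : (1 : SpecialLinearGroup (Fin n) ℝ).1 = 1 := rfl
      rw [this, X_one, sub_zero, mul_one]
    have h3 := Metric.tendsto_nhds.1 h1.tendsto d hd
    filter_upwards [h3] with g hg
    rw [Real.dist_eq] at hg
    rw [h2] at hg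
    exact hg
  filter_upwards [hdet, hsmall] with g hg1 hg2
  obtain ⟨u, hu, hu1⟩ := unip I S hS (X I g.1) (fun i j hij => X_entry I g.1 hg1 i j hij)
  refine ⟨g * u⁻¹, u, by group, hu, ?_⟩
  have huinv : (u⁻¹).1 = 1 - X I g.1 := by
    have h1 : (u⁻¹).1 * u.1 = 1 := by
      have := congrArg Subtype.val (inv_mul_cancel u)
      exact this
    have h2 : u.1 * (1 - X I g.1) = 1 := by
      rw [hu1]
      have : (1 + X I g.1) * (1 - X I g.1) = 1 - X I g.1 * X I g.1 := by noncomm_ring
      rw [this, X_X I g.1 hg1, sub_zero]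
    calc (u⁻¹).1 = (u⁻¹).1 * (u.1 * (1 - X I g.1)) := by rw [h2, mul_one]
      _ = ((u⁻¹).1 * u.1) * (1 - X I g.1) := by rw [mul_assoc]
      _ = 1 - X I g.1 := by rw [h1, one_mul]
  have hp : (g * u⁻¹).1 = g.1 * (1 - X I g.1) := by
    rw [← huinv]; rfl
  intro k
  apply hbox
  set q := a ^ k * (g * u⁻¹) * (a ^ k)⁻¹ with hq
  have hqa : q * a ^ k = a ^ k * (g * u⁻¹) := by rw [hq]; group
  have hak : (a ^ k).1 = diagonal fun i => α i ^ k := by
    have : (a ^ k).1 = a.1 ^ k := Matrix.SpecialLinearGroup.coe_pow a k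
    rw [this, ha, diagonal_pow]
    rfl
  have hent : ∀ i j, q.1 i j * α j ^ k = α i ^ k * (g.1 * (1 - X I g.1)) i j := by
    intro i j
    have h1 : (q * a ^ k).1 = q.1 * (a ^ k).1 := rfl
    have h2 : (a ^ k * (g * u⁻¹)).1 = (a ^ k).1 * (g * u⁻¹).1 := rfl
    have h3 : (q * a ^ k).1 i j = (a ^ k * (g * u⁻¹)).1 i j := by rw [hqa]
    rw [h1, h2, hak, hp, mul_diagonal, diagonal_mul] at h3
    exact h3
  intro i j
  have hjk : 0 < α j ^ k := pow_pos (hα j) k
  have hik : 0 < α i ^ k := pow_pos (hα i) k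
  have hsame : α i = α j → |q.1 i j - (1 : Matrix (Fin n) (Fin n) ℝ) i j| < d := by
    intro hij
    have h1 := hent i j
    rw [hij, mul_comm] at h1
    rw [mul_left_cancel₀ hjk.ne' h1]
    exact hg2 i j
  by_cases hiI : i ∈ I
  · by_cases hjI : j ∈ I
    · exact hsame (hI i hiI j hjI)
    · have hij : i ≠ j := fun hh => hjI (hh ▸ hiI)
      have h1 := hent i j
      rw [entry_zero I g.1 hg1 i j hiI hjI, mul_zero] at h1
      have h2 : q.1 i j = 0 := by
        rcases mul_eq_zero.1 h1 with h | h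
        · exact h
        · exact absurd h hjk.ne'
      rw [h2, one_apply_ne hij, sub_zero, abs_zero]
      exact hd
  · by_cases hjI : j ∈ I
    · have hij : i ≠ j := fun hh => hiI (hh ▸ hjI)
      have h0 := hg2 i j
      rw [one_apply_ne hij, sub_zero] at h0 ⊢
      have h1 := hent i j
      have h2 : q.1 i j = (α i ^ k / α j ^ k) * (g.1 * (1 - X I g.1)) i j := by
        field_simp
        rw [← h1]
      have h3 : α i ^ k / α j ^ k ≤ 1 := by
        rw [div_le_one hjk]
        exact pow_le_pow_left₀ (hα i).le (hle j hjI i hiI) k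
      rw [h2, abs_mul, abs_of_pos (div_pos hik hjk)]
      calc α i ^ k / α j ^ k * |(g.1 * (1 - X I g.1)) i j|
          ≤ 1 * |(g.1 * (1 - X I g.1)) i j| := mul_le_mul_of_nonneg_right h3 (abs_nonneg _)
        _ < d := by rw [one_mul]; exact h0
    · exact hsame (hIc i hiI j hjI)

instance : LocallyCompactSpace (SpecialLinearGroup (Fin n) ℝ) :=
  haveI : LocallyCompactSpace (Matrix (Fin n) (Fin n) ℝ) :=
    inferInstanceAs (LocallyCompactSpace (Fin n → Fin n → ℝ))
  SpecialLinearGroup.isClosedEmbedding_val.locallyCompactSpace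

instance : SecondCountableTopology (SpecialLinearGroup (Fin n) ℝ) :=
  haveI : SecondCountableTopology (Matrix (Fin n) (Fin n) ℝ) :=
    inferInstanceAs (SecondCountableTopology (Fin n → Fin n → ℝ))
  SpecialLinearGroup.isClosedEmbedding_val.isEmbedding.secondCountableTopology

end matrices

end Pool.Agent.Work.MP_67388f_an
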