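import Mathlib
import Pool.Agent.Work.MP_67388f_an.HZ.Defs

set_option autoImplicit false

namespace Pool.Agent.Work.MP_67388f_an

open MeasureTheory Filter Topology Matrix

section general

variable {X : Type*} [TopologicalSpace X] [LocallyCompactSpace X] [T2Space X]
  [SecondCountableTopology X] [MeasurableSpace X] [BorelSpace X]
variable {G : Type*} [Group G] [TopologicalSpace G] [IsTopologicalGroup G] [MulAction G X]
  [ContinuousSMul G X]

/-- Null sets of an invariant measure on a homogeneous space are null along every orbit map. -/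
theorem orbit_null [LocallyCompactSpace G] [SecondCountableTopology G] [T2Space G]
    [MeasurableSpace G] [BorelSpace G] (lam : Measure G) [lam.IsHaarMeasure]
    (htrans : ∀ x y : X, ∃ g : G, g • x = y) (m : Measure X) [IsProbabilityMeasure m]
    (hm : ∀ g : G, m.map (fun z => g • z) = m) (E : Set X) (hE : MeasurableSet E) (h0 : m E = 0)
    (x : X) : lam {g | g • x ∈ E} = 0 := by
  have hmeas : Measurable fun p : G × X => p.1 • p.2 := continuous_smul.measurable
  have hZ : MeasurableSet {p : G × X | p.1 • p.2 ∈ E} := hmeas hE
  have h1 : (lam.prod m) {p : G × X | p.1 • p.2 ∈ E} = 0 := by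
    rw [Measure.measure_prod_null hZ]
    refine Filter.Eventually.of_forall fun g => ?_
    show m ((fun z => g • z) ⁻¹' E) = 0
    rw [← Measure.map_apply (continuous_const_smul g).measurable hE, hm g, h0]
  have h2 : (m.prod lam) (Prod.swap ⁻¹' {p : G × X | p.1 • p.2 ∈ E}) = 0 := by
    rw [← Measure.map_apply measurable_swap hZ, Measure.prod_swap]
    exact h1
  rw [Measure.measure_prod_null (measurable_swap hZ)] at h2
  obtain ⟨x0, hx0⟩ := h2.exists
  have hx0' : lam {g | g • x0 ∈ E} = 0 := hx0
  obtain ⟨h, hh⟩ := htrans x0 x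
  have hset : {g : G | g • x ∈ E} = (fun y => y * h) ⁻¹' {g | g • x0 ∈ E} := by
    ext g
    simp only [Set.mem_ofPred_eq, Set.mem_preimage, mul_smul, hh]
  rw [hset, measure_mul_right_null]
  exact hx0'

end general

end Pool.Agent.Work.MP_67388f_an
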