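import Mathlib
import Pool.Agent.Work.MP_67388f_an.HZ.Defs
import Pool.Agent.Work.MP_67388f_an.HZ.Smooth

set_option autoImplicit false

namespace Pool.Agent.Work.MP_67388f_an

open MeasureTheory Filter Topology Matrix
open scoped ENNReal

section general

variable {X : Type*} [TopologicalSpace X] [LocallyCompactSpace X] [T2Space X]
  [SecondCountableTopology X] [MeasurableSpace X] [BorelSpace X]
variable {G : Type*} [Group G] [TopologicalSpace G] [IsTopologicalGroup G] [MulAction G X]
  [ContinuousSMul G X]

namespace IrrAux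

/-- the return set -/
def A (G : Type*) [Group G] {X : Type*} [MulAction G X] (s : Set X) (x : X) : Set G :=
  {g : G | g⁻¹ • x ∈ s}

/-- smoothed indicator -/
noncomputable def F [MeasurableSpace G] (lam : Measure G) (s : Set X) (k : G → ℝ) (x : X) : ℝ :=
  ∫ g in A G s x, k g ∂lam

theorem meas_A [MeasurableSpace G] [BorelSpace G] (s : Set X) (hs : MeasurableSet s) (x : X) :
    MeasurableSet (A G s x) := by
  have : Continuous fun g : G => g⁻¹ • x := by fun_prop
  exact this.measurable hs

theorem F_shift [MeasurableSpace G] [BorelSpace G] (lam : Measure G) [lam.IsHaarMeasure]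
    (s : Set X) (hs : MeasurableSet s) (k : G → ℝ) (x : X) (g0 : G) :
    F lam s k (g0 • x) = ∫ g in A G s x, k (g0 * g) ∂lam := by
  unfold F
  rw [← integral_indicator (meas_A s hs _), ← integral_indicator (meas_A s hs _),
    ← integral_mul_left_eq_self _ g0]
  congr 1
  funext g
  have hiff : g0 * g ∈ A G s (g0 • x) ↔ g ∈ A G s x := by
    unfold A
    simp only [Set.mem_ofPred_eq, _root_.mul_inv_rev, mul_smul, inv_smul_smul]
  by_cases h : g ∈ A G s x
  · rw [Set.indicator_of_mem h, Set.indicator_of_mem (hiff.2 h)]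
  · rw [Set.indicator_of_notMem h, Set.indicator_of_notMem (fun h' => h (hiff.1 h'))]

theorem F_orbit_cont [LocallyCompactSpace G] [MeasurableSpace G] [BorelSpace G] (lam : Measure G)
    [lam.IsHaarMeasure] (s : Set X) (hs : MeasurableSet s) (k : G → ℝ) (hk : Continuous k)
    (hkc : HasCompactSupport k) (x : X) : Continuous fun g0 : G => F lam s k (g0 • x) := by
  have h1 : Continuous fun z : G => ∫ y, (fun g : G => k g⁻¹) (y⁻¹ * z) ∂(lam.restrict (A G s x)) :=
    continuous_integral_apply_inv_mul (hk.comp continuous_inv)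
      (hkc.comp_homeomorph (Homeomorph.inv G))
  have h2 := h1.comp (continuous_inv (G := G))
  refine h2.congr fun g0 => ?_
  rw [F_shift lam s hs k x g0]
  simp only [Function.comp]
  congr 1
  funext g
  rw [_root_.mul_inv_rev, inv_inv, inv_inv]

theorem F_cont [LocallyCompactSpace G] [SecondCountableTopology G] [T2Space G]
    [MeasurableSpace G] [BorelSpace G] (lam : Measure G)
    [lam.IsHaarMeasure] (htrans : ∀ x y : X, ∃ g : G, g • x = y)
    (s : Set X) (hs : MeasurableSet s) (k : G → ℝ) (hk : Continuous k)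
    (hkc : HasCompactSupport k) (x0 : X) : Continuous (F lam s k : X → ℝ) := by
  haveI : MulAction.IsPretransitive G X := ⟨htrans⟩
  have hopen : IsOpenMap (fun g : G => g • x0) := isOpenMap_smul_of_sigmaCompact x0
  have hcont : Continuous (fun g : G => g • x0) := by fun_prop
  have hsurj : Function.Surjective (fun g : G => g • x0) := fun y => htrans x0 y
  have hq : IsQuotientMap (fun g : G => g • x0) := hopen.isQuotientMap hcont hsurj
  rw [hq.continuous_iff]
  exact F_orbit_cont lam s hs k hk hkc x0

theorem F_inv [LocallyCompactSpace G] [SecondCountableTopology G] [T2Space G]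
    [MeasurableSpace G] [BorelSpace G] (lam : Measure G)
    [lam.IsHaarMeasure] (N : Subgroup G) [N.Normal] (htrans : ∀ x y : X, ∃ g : G, g • x = y)
    (m : Measure X) [IsProbabilityMeasure m] (hm : ∀ g : G, m.map (fun z => g • z) = m)
    (s : Set X) (hs : MeasurableSet s)
    (hinv : ∀ g ∈ N, (fun z => g • z) ⁻¹' s =ᵐ[m] s) (k : G → ℝ) (hk : Continuous k)
    (hkc : HasCompactSupport k) (x0 : X) (h : G) (hh : h ∈ N) (x : X) :
    F lam s k (h • x) = F lam s k x := by
  have h1 : ∀ g : G, ∀ᵐ x ∂m, (g ∈ A G s (h • x) ↔ g ∈ A G s x) := by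
    intro g
    have hN : g⁻¹ * h * g ∈ N := by
      have := (inferInstance : N.Normal).conj_mem h hh g⁻¹
      rwa [inv_inv] at this
    have h2 : ∀ᵐ y ∂m, (g⁻¹ * h * g) • y ∈ s ↔ y ∈ s := (hinv _ hN).mem_iff
    have hmp : MeasurePreserving (fun z : X => g⁻¹ • z) m m :=
      ⟨(continuous_const_smul g⁻¹).measurable, hm g⁻¹⟩
    have h3 := hmp.quasiMeasurePreserving.ae h2
    filter_upwards [h3] with x hx
    unfold A
    simp only [Set.mem_ofPred_eq]
    rw [← hx, ← mul_smul, ← mul_smul]
    simp only [mul_assoc, mul_inv_cancel, mul_one]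
  have hms : MeasurableSet {p : G × X | p.1 ∈ A G s (h • p.2) ↔ p.1 ∈ A G s p.2} := by
    have e1 : Continuous fun p : G × X => p.1⁻¹ • (h • p.2) := by fun_prop
    have e2 : Continuous fun p : G × X => p.1⁻¹ • p.2 := by fun_prop
    have e1' := e1.measurable hs
    have e2' := e2.measurable hs
    have : {p : G × X | p.1 ∈ A G s (h • p.2) ↔ p.1 ∈ A G s p.2}
        = (((fun p : G × X => p.1⁻¹ • (h • p.2)) ⁻¹' s) ∩ ((fun p : G × X => p.1⁻¹ • p.2) ⁻¹' s))
          ∪ (((fun p : G × X => p.1⁻¹ • (h • p.2)) ⁻¹' s)ᶜ ∩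
            ((fun p : G × X => p.1⁻¹ • p.2) ⁻¹' s)ᶜ) := by
      ext p
      simp only [A, Set.mem_ofPred_eq, Set.mem_union, Set.mem_inter_iff, Set.mem_preimage,
        Set.mem_compl_iff]
      tauto
    rw [this]
    exact (e1'.inter e2').union (e1'.compl.inter e2'.compl)
  have h2 : ∀ᵐ x ∂m, ∀ᵐ g ∂lam, (g ∈ A G s (h • x) ↔ g ∈ A G s x) :=
    (Measure.ae_ae_comm hms).1 (Filter.Eventually.of_forall h1)
  have h3 : ∀ᵐ x ∂m, F lam s k (h • x) = F lam s k x := by
    filter_upwards [h2] with x hx
    unfold F
    apply setIntegral_congr_set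
    filter_upwards [hx] with g hg
    exact propext hg
  have hcF := F_cont lam htrans s hs k hk hkc x0
  have hopen : IsOpen {y : X | F lam s k (h • y) ≠ F lam s k y} :=
    isOpen_ne_fun (hcF.comp (continuous_const_smul h)) hcF
  have hnull : m {y : X | F lam s k (h • y) ≠ F lam s k y} = 0 := by
    rw [ae_iff] at h3
    exact h3
  have horb := orbit_null lam htrans m hm _ hopen.measurableSet hnull x0
  have hopen' : IsOpen {g : G | g • x0 ∈ {y : X | F lam s k (h • y) ≠ F lam s k y}} :=
    hopen.preimage (by fun_prop : Continuous fun g : G => g • x0)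
  replace horb := (hopen'.measure_eq_zero_iff lam).1 horb
  obtain ⟨g, rfl⟩ := htrans x0 x
  by_contra hne
  have : g ∈ ({g : G | g • x0 ∈ {y : X | F lam s k (h • y) ≠ F lam s k y}}) := hne
  rw [horb] at this
  exact this

theorem F_int [LocallyCompactSpace G] [SecondCountableTopology G] [T2Space G]
    [MeasurableSpace G] [BorelSpace G] (lam : Measure G)
    [lam.IsHaarMeasure]
    (m : Measure X) [IsProbabilityMeasure m] (hm : ∀ g : G, m.map (fun z => g • z) = m)
    (s : Set X) (hs : MeasurableSet s) (k : G → ℝ) (hk : Continuous k)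
    (hkc : HasCompactSupport k) :
    ∫ x, F lam s k x ∂m = m.real s * ∫ g, k g ∂lam := by
  have hkint : Integrable k lam := hk.integrable_of_hasCompactSupport hkc
  have hmeas : MeasurableSet {p : X × G | p.2⁻¹ • p.1 ∈ s} := by
    have e : Continuous fun p : X × G => p.2⁻¹ • p.1 := by fun_prop
    exact e.measurable hs
  have hint : Integrable ({p : X × G | p.2⁻¹ • p.1 ∈ s}.indicator fun p => k p.2) (m.prod lam) :=
    (hkint.comp_snd m).indicator hmeas
  have h1 : ∀ x, F lam s k x
      = ∫ g, ({p : X × G | p.2⁻¹ • p.1 ∈ s}.indicator (fun p => k p.2)) (x, g) ∂lam := by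
    intro x
    unfold F
    rw [← integral_indicator (meas_A s hs _)]
    rfl
  simp_rw [h1]
  rw [integral_integral_swap (f := fun x g =>
    ({p : X × G | p.2⁻¹ • p.1 ∈ s}.indicator (fun p => k p.2)) (x, g)) hint]
  rw [← integral_const_mul]
  congr 1
  funext g
  have h2 : (fun x : X => ({p : X × G | p.2⁻¹ • p.1 ∈ s}.indicator (fun p => k p.2)) (x, g))
      = ((fun z : X => g⁻¹ • z) ⁻¹' s).indicator fun _ => k g := rfl
  rw [h2, integral_indicator_const _ ((continuous_const_smul g⁻¹).measurable hs)]
  have h3 : m.real ((fun z : X => g⁻¹ • z) ⁻¹' s) = m.real s := by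
    rw [measureReal_def, measureReal_def,
      ← Measure.map_apply (continuous_const_smul g⁻¹).measurable hs, hm]
  rw [h3, smul_eq_mul]

end IrrAux

open IrrAux in
/-- A normal subgroup with dense orbits acts ergodically on a homogeneous space. -/
theorem dense_ergodic [LocallyCompactSpace G] [SecondCountableTopology G] [T2Space G]
    (N : Subgroup G) [N.Normal] (htrans : ∀ x y : X, ∃ g : G, g • x = y) (m : Measure X)
    [IsProbabilityMeasure m] (hm : ∀ g : G, m.map (fun z => g • z) = m)
    (hdense : ∀ x : X, Dense {y : X | ∃ g ∈ N, g • x = y}) (s : Set X) (hs : MeasurableSet s)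
    (hinv : ∀ g ∈ N, (fun z => g • z) ⁻¹' s =ᵐ[m] s) : m s = 0 ∨ m sᶜ = 0 := by
  letI : MeasurableSpace G := borel G
  haveI : BorelSpace G := ⟨rfl⟩
  set lam : Measure G := MeasureTheory.Measure.haar with hlam
  obtain ⟨x0⟩ : Nonempty X := by
    by_contra hne
    rw [not_nonempty_iff] at hne
    have h1 : m Set.univ = 1 := measure_univ
    rw [Set.univ_eq_empty_iff.2 hne, measure_empty] at h1
    exact zero_ne_one h1
  -- the smoothed indicators are constant
  have hconst : ∀ (k : G → ℝ), Continuous k → HasCompactSupport k → ∀ x : X,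
      F lam s k x = m.real s * ∫ g, k g ∂lam := by
    intro k hk hkc x
    have hcF : Continuous (F lam s k : X → ℝ) := F_cont lam htrans s hs k hk hkc x0
    have hall : ∀ y, F lam s k y = F lam s k x := by
      have := Continuous.ext_on (hdense x) hcF (continuous_const (y := F lam s k x)) (by
        rintro y ⟨g, hg, rfl⟩
        exact F_inv lam N htrans m hm s hs hinv k hk hkc x0 g hg x)
      intro y
      exact congrFun this y
    have hint := F_int lam m hm s hs k hk hkc
    simp_rw [hall] at hint
    rw [integral_const, measureReal_def, measure_univ] at hint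
    simpa using hint
  by_cases h0 : m s = 0
  · exact Or.inl h0
  right
  have hnull : ∀ x : X, lam (A G s x)ᶜ = 0 := by
    intro x
    haveI : IsLocallyFiniteMeasure (lam.restrict (A G s x)) :=
      Measure.isLocallyFiniteMeasure_of_le Measure.restrict_le_self
    haveI : ((m s) • lam).Regular := Measure.Regular.smul (measure_ne_top m s)
    have hext : lam.restrict (A G s x) = (m s) • lam := by
      apply Measure.ext_of_integral_eq_on_compactlySupported
      intro f
      have := hconst f f.continuous f.hasCompactSupport x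
      unfold F at this
      rw [this, integral_smul_measure]
      rfl
    have h1 : (lam.restrict (A G s x)) (A G s x)ᶜ = 0 := by
      rw [Measure.restrict_apply (meas_A s hs x).compl]
      simp
    rw [hext, Measure.smul_apply, smul_eq_mul] at h1
    rcases mul_eq_zero.1 h1 with h | h
    · exact absurd h h0
    · exact h
  have hmeas : MeasurableSet {p : X × G | p.2⁻¹ • p.1 ∉ s} := by
    have e : Continuous fun p : X × G => p.2⁻¹ • p.1 := by fun_prop
    exact e.measurable hs.compl
  have h1 : ∀ᵐ x ∂m, ∀ᵐ g ∂lam, g⁻¹ • x ∈ s := by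
    refine Filter.Eventually.of_forall fun x => ?_
    rw [ae_iff]
    exact hnull x
  have hmeas' : MeasurableSet {p : X × G | p.2⁻¹ • p.1 ∈ s} := by
    have e : Continuous fun p : X × G => p.2⁻¹ • p.1 := by fun_prop
    exact e.measurable hs
  have h2 := (Measure.ae_ae_comm (p := fun (x : X) (g : G) => g⁻¹ • x ∈ s) hmeas').1 h1
  obtain ⟨g, hg⟩ := h2.exists
  rw [ae_iff] at hg
  have h3 : {a : X | ¬ g⁻¹ • a ∈ s} = (fun z : X => g⁻¹ • z) ⁻¹' sᶜ := rfl
  rw [h3, ← Measure.map_apply (continuous_const_smul g⁻¹).measurable hs.compl, hm] at hg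
  exact hg

end general

end Pool.Agent.Work.MP_67388f_an
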