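import Mathlib

set_option autoImplicit false

namespace Pool.Agent.Work.MP_67388f_an

open MeasureTheory Filter Topology Matrix

section meanaux

variable {X : Type*} [MeasurableSpace X]

private theorem mn_op {m : Measure X} {φ : X → X} (hφ : MeasurePreserving φ m m) :
    ∃ T : Lp ℝ 2 m →L[ℝ] Lp ℝ 2 m, ‖T‖ ≤ 1 ∧
      (∀ (f : X → ℝ) (hf : MemLp f 2 m) (k : ℕ), T^[k] (hf.toLp f) =
        (hf.comp_measurePreserving (hφ.iterate k)).toLp (f ∘ φ^[k])) ∧
      ∀ g : Lp ℝ 2 m, T g =ᵐ[m] g ∘ φ := by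
  have hb : ∀ g : Lp ℝ 2 m, ‖Lp.compMeasurePreservingₗ ℝ φ hφ g‖ ≤ 1 * ‖g‖ := by
    intro g
    rw [one_mul]
    exact (Lp.norm_compMeasurePreserving g hφ).le
  refine ⟨LinearMap.mkContinuous (Lp.compMeasurePreservingₗ ℝ φ hφ) 1 hb, ?_, ?_, ?_⟩
  · exact LinearMap.mkContinuous_norm_le _ zero_le_one hb
  · intro f hf k
    have h1 : (LinearMap.mkContinuous (Lp.compMeasurePreservingₗ ℝ φ hφ) 1 hb :
        Lp ℝ 2 m → Lp ℝ 2 m) = (Lp.compMeasurePreserving φ hφ : Lp ℝ 2 m → Lp ℝ 2 m) := rfl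
    rw [h1, Lp.compMeasurePreserving_iterate hφ k]
    rfl
  · intro g
    exact Lp.coeFn_compMeasurePreserving g hφ

private theorem mn_L2 (m : Measure X) [IsProbabilityMeasure m] (φ : X → X)
    (hφ : MeasurePreserving φ m m)
    (hconst : ∀ f : Lp ℝ 2 m, (fun x => f (φ x)) =ᵐ[m] f →
      ∃ r : ℝ, (f : X → ℝ) =ᵐ[m] fun _ => r)
    (f : X → ℝ) (hf : MemLp f 2 m) (F : X → ℝ) (hF : MemLp F 2 m) :
    Tendsto (fun K : ℕ => (∑ k ∈ Finset.range K, ∫ x, f (φ^[k] x) * F x ∂m) / K) atTop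
      (𝓝 ((∫ x, f x ∂m) * ∫ x, F x ∂m)) := by
  obtain ⟨T, hT1, hTk, hTco⟩ := mn_op hφ
  have hmean := ContinuousLinearMap.tendsto_birkhoffAverage_orthogonalProjection T hT1 (hf.toLp f)
  set P : Lp ℝ 2 m :=
    ((T.eqLocus (1 : Lp ℝ 2 m →L[ℝ] Lp ℝ 2 m)).orthogonalProjectionOnto (hf.toLp f) : Lp ℝ 2 m)
    with hP
  have hPfix : T P = P := by
    have h := ((T.eqLocus (1 : Lp ℝ 2 m →L[ℝ] Lp ℝ 2 m)).orthogonalProjectionOnto
      (hf.toLp f)).2
    rw [LinearMap.mem_eqLocus] at h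
    exact h
  obtain ⟨r, hr⟩ := hconst P (by
    have h := hTco P
    rw [hPfix] at h
    exact h.symm)
  -- pairing with an L2 function
  have hpair : ∀ (g : X → ℝ) (hg : MemLp g 2 m) (K : ℕ),
      (inner ℝ (birkhoffAverage ℝ T _root_.id K (hf.toLp f)) (hg.toLp g) : ℝ) =
        (∑ k ∈ Finset.range K, ∫ x, f (φ^[k] x) * g x ∂m) / K := by
    intro g hg K
    rw [birkhoffAverage, birkhoffSum, inner_smul_left, sum_inner, div_eq_inv_mul]
    congr 1
    refine Finset.sum_congr rfl fun k _ => ?_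
    rw [id, hTk f hf k, L2.inner_def]
    refine integral_congr_ae ?_
    filter_upwards [(hf.comp_measurePreserving (hφ.iterate k)).coeFn_toLp, hg.coeFn_toLp]
      with x h1 h2
    rw [h1, h2]
    simp [mul_comm]
  have hlim : ∀ (g : X → ℝ) (hg : MemLp g 2 m),
      Tendsto (fun K : ℕ => (∑ k ∈ Finset.range K, ∫ x, f (φ^[k] x) * g x ∂m) / K) atTop
        (𝓝 (r * ∫ x, g x ∂m)) := by
    intro g hg
    have h1 : Tendsto (fun K : ℕ => (inner ℝ (birkhoffAverage ℝ T _root_.id K (hf.toLp f))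
        (hg.toLp g) : ℝ)) atTop (𝓝 (inner ℝ P (hg.toLp g) : ℝ)) :=
      hmean.inner tendsto_const_nhds
    have h2 : (inner ℝ P (hg.toLp g) : ℝ) = r * ∫ x, g x ∂m := by
      rw [L2.inner_def, ← integral_const_mul]
      refine integral_congr_ae ?_
      filter_upwards [hr, hg.coeFn_toLp] with x h1 h2
      rw [h1, h2]
      simp [mul_comm]
    rw [← h2]
    refine h1.congr fun K => hpair g hg K
  have hrf : r = ∫ x, f x ∂m := by
    have h1 := hlim (fun _ => 1) (memLp_const 1)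
    have h2 : Tendsto (fun K : ℕ => (∑ k ∈ Finset.range K, ∫ x, f (φ^[k] x) * (1 : ℝ) ∂m) / K)
        atTop (𝓝 (∫ x, f x ∂m)) := by
      refine tendsto_const_nhds.congr' ?_
      filter_upwards [eventually_gt_atTop 0] with K hK
      have h3 : ∀ k : ℕ, ∫ x, f (φ^[k] x) * (1 : ℝ) ∂m = ∫ x, f x ∂m := by
        intro k
        simp only [mul_one]
        have h4 := (hφ.iterate k)
        rw [← integral_map h4.aemeasurable (by rw [h4.map_eq]; exact hf.aestronglyMeasurable),
          h4.map_eq]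
      simp only [h3, Finset.sum_const, Finset.card_range, nsmul_eq_mul]
      field_simp
    have h5 := tendsto_nhds_unique h1 h2
    simpa using h5
  rw [← hrf]
  exact hlim F hF

private theorem mn_L1 (m : Measure X) [IsProbabilityMeasure m] (φ : X → X)
    (hφ : MeasurePreserving φ m m)
    (hconst : ∀ f : Lp ℝ 2 m, (fun x => f (φ x)) =ᵐ[m] f →
      ∃ r : ℝ, (f : X → ℝ) =ᵐ[m] fun _ => r)
    (f : X → ℝ) (hf : Measurable f) (C : ℝ) (hfC : ∀ x, |f x| ≤ C) (F : X → ℝ)
    (hF : Integrable F m) :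
    Tendsto (fun K : ℕ => (∑ k ∈ Finset.range K, ∫ x, f (φ^[k] x) * F x ∂m) / K) atTop
      (𝓝 ((∫ x, f x ∂m) * ∫ x, F x ∂m)) := by
  have hC0 : 0 ≤ C := by
    have hne : Nonempty X := by
      by_contra h
      rw [not_nonempty_iff] at h
      have h1 : m Set.univ = 1 := measure_univ
      rw [Set.univ_eq_empty_iff.mpr h] at h1
      simp at h1
    exact (abs_nonneg _).trans (hfC hne.some)
  have hf2 : MemLp f 2 m :=
    MemLp.of_bound hf.aestronglyMeasurable C (Eventually.of_forall fun x => by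
      rw [Real.norm_eq_abs]; exact hfC x)
  rw [Metric.tendsto_atTop]
  intro ε hε
  -- approximate F in L1 by a simple function
  have hη : 0 < ε / (3 * (C + 1)) := by positivity
  obtain ⟨S, hS, hSm⟩ := (memLp_one_iff_integrable.2 hF).exists_simpleFunc_eLpNorm_sub_lt
    (by simp) (ε := ENNReal.ofReal (ε / (3 * (C + 1)))) (by simpa using hη)
  have hSint : Integrable S m := memLp_one_iff_integrable.1 hSm
  have hS2 : MemLp S 2 m := S.memLp_of_isFiniteMeasure 2 m
  have hdiff : ∫ x, |F x - S x| ∂m < ε / (3 * (C + 1)) := by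
    have h1 : ∫ x, |F x - S x| ∂m = (eLpNorm (F - ⇑S) 1 m).toReal := by
      have h2 : AEStronglyMeasurable (fun x => |F x - S x|) m :=
        (hF.sub hSint).abs.aestronglyMeasurable
      rw [eLpNorm_one_eq_lintegral_enorm, integral_eq_lintegral_of_nonneg_ae
        (Eventually.of_forall fun x => abs_nonneg _) h2]
      congr 1
      refine lintegral_congr fun x => ?_
      rw [← Real.norm_eq_abs, ofReal_norm]
      rfl
    rw [h1]
    exact ENNReal.toReal_lt_of_lt_ofReal hS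
  have hfm : ∀ k : ℕ, Measurable fun x => f (φ^[k] x) :=
    fun k => hf.comp (hφ.iterate k).measurable
  have hprod : ∀ (k : ℕ) (g : X → ℝ), Integrable g m →
      Integrable (fun x => f (φ^[k] x) * g x) m := by
    intro k g hg
    exact hg.bdd_mul (c := C) (hfm k).aestronglyMeasurable
      (Eventually.of_forall fun x => by rw [Real.norm_eq_abs]; exact hfC _)
  have hterm : ∀ k : ℕ, |(∫ x, f (φ^[k] x) * F x ∂m) - ∫ x, f (φ^[k] x) * S x ∂m| ≤
      C * ∫ x, |F x - S x| ∂m := by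
    intro k
    rw [← integral_sub (hprod k F hF) (hprod k S hSint), ← integral_const_mul]
    refine (abs_integral_le_integral_abs).trans ?_
    refine integral_mono_ae ((hprod k F hF).sub (hprod k S hSint)).abs
      ((hF.sub hSint).abs.const_mul C) (Eventually.of_forall fun x => ?_)
    simp only
    rw [← mul_sub, abs_mul]
    exact mul_le_mul_of_nonneg_right (hfC _) (abs_nonneg _)
  have hCd : C * ∫ x, |F x - S x| ∂m < ε / 3 := by
    have h1 : C * ∫ x, |F x - S x| ∂m ≤ (C + 1) * ∫ x, |F x - S x| ∂m :=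
      mul_le_mul_of_nonneg_right (by linarith) (integral_nonneg fun x => abs_nonneg _)
    have h2 : (C + 1) * ∫ x, |F x - S x| ∂m < (C + 1) * (ε / (3 * (C + 1))) :=
      mul_lt_mul_of_pos_left hdiff (by linarith)
    have h3 : (C + 1) * (ε / (3 * (C + 1))) = ε / 3 := by field_simp
    linarith
  have hlimdiff : |(∫ x, f x ∂m) * ∫ x, F x ∂m - (∫ x, f x ∂m) * ∫ x, S x ∂m| ≤
      C * ∫ x, |F x - S x| ∂m := by
    rw [← mul_sub, abs_mul, ← integral_sub hF hSint]
    refine mul_le_mul ?_ abs_integral_le_integral_abs (abs_nonneg _) hC0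
    refine abs_integral_le_integral_abs.trans ?_
    calc ∫ x, |f x| ∂m ≤ ∫ _, C ∂m := by
          refine integral_mono_ae (hf2.integrable (by norm_num)).abs (integrable_const C)
            (Eventually.of_forall fun x => hfC x)
      _ = C := by simp
  obtain ⟨K0, hK0⟩ := (Metric.tendsto_atTop.1 (mn_L2 m φ hφ hconst f hf2 S hS2)) (ε / 3)
    (by positivity)
  refine ⟨max K0 1, fun K hK => ?_⟩
  have hKpos : (0 : ℝ) < K := by
    have : 1 ≤ K := le_trans (le_max_right _ _) hK
    exact_mod_cast this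
  have h1 := hK0 K (le_trans (le_max_left _ _) hK)
  rw [Real.dist_eq] at h1 ⊢
  have h2 : |(∑ k ∈ Finset.range K, ∫ x, f (φ^[k] x) * F x ∂m) / K -
      (∑ k ∈ Finset.range K, ∫ x, f (φ^[k] x) * S x ∂m) / K| ≤ C * ∫ x, |F x - S x| ∂m := by
    rw [← sub_div, ← Finset.sum_sub_distrib, abs_div, abs_of_pos hKpos, div_le_iff₀ hKpos]
    refine (Finset.abs_sum_le_sum_abs _ _).trans ?_
    refine (Finset.sum_le_sum fun k _ => hterm k).trans ?_
    simp [mul_comm]
  have h3 := abs_sub_lt_iff.1 h1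
  have h4 := abs_le.1 h2
  have h5 := abs_le.1 hlimdiff
  rw [abs_sub_lt_iff]
  constructor <;> linarith [h3.1, h3.2, h4.1, h4.2, h5.1, h5.2]

end meanaux

section general

variable {X : Type*} [TopologicalSpace X] [LocallyCompactSpace X] [T2Space X]
  [SecondCountableTopology X] [MeasurableSpace X] [BorelSpace X]
variable {G : Type*} [Group G] [TopologicalSpace G] [IsTopologicalGroup G] [MulAction G X]
  [ContinuousSMul G X]

/-- Mean ergodic theorem tested against integrable functions. -/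
theorem mean_conv (m : Measure X) [IsProbabilityMeasure m] (c : G)
    (hc : m.map (fun z => c • z) = m)
    (hconst : ∀ f : Lp ℝ 2 m, (fun x => f (c • x)) =ᵐ[m] f →
      ∃ r : ℝ, (f : X → ℝ) =ᵐ[m] fun _ => r)
    (f : X → ℝ) (hf : Measurable f) (C : ℝ) (hfC : ∀ x, |f x| ≤ C) (F : X → ℝ)
    (hF : Integrable F m) :
    Tendsto (fun K : ℕ => (∑ k ∈ Finset.range K, ∫ x, f (c ^ k • x) * F x ∂m) / K) atTop
      (𝓝 ((∫ x, f x ∂m) * ∫ x, F x ∂m)) := by
  have hφ : MeasurePreserving (fun z : X => c • z) m m :=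
    ⟨(continuous_const_smul c).measurable, hc⟩
  have h := mn_L1 m (fun z : X => c • z) hφ hconst f hf C hfC F hF
  have hit : ∀ (k : ℕ) (x : X), (fun z : X => c • z)^[k] x = c ^ k • x := by
    intro k x
    rw [smul_iterate]
  simpa only [hit] using h

end general

end Pool.Agent.Work.MP_67388f_an
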