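import Pool.Agent.Work.MP_67388f_an.HZ.Defs

set_option autoImplicit false

namespace Pool.Agent.Work.MP_67388f_an

open MeasureTheory Filter Topology Matrix Set

variable {n : ℕ}

/-- The part of `Y` of weight `M`. -/
noncomputable def topPart (α : Fin n → ℝ) (M : ℝ) (Y : Matrix (Fin n) (Fin n) ℝ) :
    Matrix (Fin n) (Fin n) ℝ :=
  Matrix.of fun i j => if Real.log (α i) - Real.log (α j) = M then Y i j else 0

section normed

attribute [local instance] Matrix.linftyOpNormedRing Matrix.linftyOpNormedAlgebra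
attribute [local instance] Matrix.linftyOpNormedAddCommGroup Matrix.linftyOpNormedSpace

lemma top_exp_cont : Continuous (fun A : Matrix (Fin n) (Fin n) ℝ => NormedSpace.exp A) := by
  exact NormedSpace.exp_continuous

lemma top_exp_sq (A : Matrix (Fin n) (Fin n) ℝ) (hA : A * A = 0) : NormedSpace.exp A = 1 + A := by
  rw [NormedSpace.exp_eq_tsum ℝ]
  show (∑' k : ℕ, ((k.factorial : ℝ)⁻¹) • A ^ k) = _
  rw [tsum_eq_sum (s := Finset.range 2)]
  · simp [Finset.sum_range_succ]
  · intro k hk
    have hk2 : 2 ≤ k := by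
      have := Finset.mem_range.not.1 hk
      omega
    obtain ⟨m, rfl⟩ := Nat.exists_eq_add_of_le hk2
    rw [pow_add, pow_two, hA, zero_mul, smul_zero]

end normed

lemma top_conj_pow (S : Subgroup (SpecialLinearGroup (Fin n) ℝ))
    (a : SpecialLinearGroup (Fin n) ℝ) (hSa : ∀ u ∈ S, a * u * a⁻¹ ∈ S) (k : ℕ)
    (u : SpecialLinearGroup (Fin n) ℝ) (hu : u ∈ S) : a ^ k * u * (a ^ k)⁻¹ ∈ S := by
  induction k with
  | zero => simpa using hu
  | succ k ih =>
    have h := hSa _ ih
    have e : a ^ (k + 1) * u * (a ^ (k + 1))⁻¹ = a * (a ^ k * u * (a ^ k)⁻¹) * a⁻¹ := by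
      rw [pow_succ']
      group
    rwa [e]

theorem top_exists (S : Subgroup (SpecialLinearGroup (Fin n) ℝ))
    (hcl : IsClosed (S : Set (SpecialLinearGroup (Fin n) ℝ))) (α : Fin n → ℝ)
    (a : SpecialLinearGroup (Fin n) ℝ) (ha : a.1 = diagonal α)
    (Y : Matrix (Fin n) (Fin n) ℝ) (b : ℝ → SpecialLinearGroup (Fin n) ℝ)
    (hb : ∀ s, (b s).1 = NormedSpace.exp (s • Y)) (hSa : ∀ u ∈ S, a * u * a⁻¹ ∈ S)
    (hSb : ∀ s, b s ∈ S)
    (M : ℝ) (hY : ∀ i j, Y i j ≠ 0 → Real.log (α i) - Real.log (α j) ≤ M) (s : ℝ) :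
    ∃ u ∈ S, u.1 = NormedSpace.exp (s • topPart α M Y) := by
  have hα : ∀ i, α i ≠ 0 := by
    intro i hi
    have h := a.2
    rw [ha, det_diagonal] at h
    rw [Finset.prod_eq_zero (Finset.mem_univ i) hi] at h
    exact zero_ne_one h
  have hpow : ∀ k : ℕ, (a ^ k).1 = diagonal (fun i => α i ^ k) := by
    intro k
    have : (a ^ k).1 = a.1 ^ k := by
      induction k with
      | zero => rfl
      | succ k ih => rw [pow_succ, pow_succ, ← ih]; rfl
    rw [this, ha, diagonal_pow]
    rfl
  have hpowinv : ∀ k : ℕ, ((a ^ k)⁻¹).1 = diagonal (fun i => (α i ^ k)⁻¹) := by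
    intro k
    have h1 : (a ^ k).1 * ((a ^ k)⁻¹).1 = 1 := congrArg Subtype.val (mul_inv_cancel (a ^ k))
    have h2 : (diagonal (fun i => (α i ^ k)⁻¹) : Matrix (Fin n) (Fin n) ℝ) * (a ^ k).1 = 1 := by
      rw [hpow, diagonal_mul_diagonal, ← diagonal_one]
      congr 1
      funext i
      exact inv_mul_cancel₀ (pow_ne_zero k (hα i))
    calc ((a ^ k)⁻¹).1 = (diagonal (fun i => (α i ^ k)⁻¹) * (a ^ k).1) * ((a ^ k)⁻¹).1 := by
          rw [h2, one_mul]
      _ = diagonal (fun i => (α i ^ k)⁻¹) := by rw [mul_assoc, h1, mul_one]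
  let v : ℕ → SpecialLinearGroup (Fin n) ℝ := fun k =>
    a ^ (2 * k) * b (Real.exp (-(2 * k * M)) * s) * (a ^ (2 * k))⁻¹
  have hv : ∀ k, v k ∈ S := fun k => top_conj_pow S a hSa _ _ (hSb _)
  have hvval : ∀ k, (v k).1 = NormedSpace.exp (Matrix.of fun i j =>
      Real.exp (2 * k * (Real.log (α i) - Real.log (α j) - M)) * (s * Y i j)) := by
    intro k
    show (a ^ (2 * k)).1 * (b (Real.exp (-(2 * k * M)) * s)).1 * ((a ^ (2 * k))⁻¹).1 = _
    rw [hb]
    have hinv : ((a ^ (2 * k))⁻¹).1 = ((a ^ (2 * k)).1)⁻¹ := by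
      refine (Matrix.inv_eq_right_inv ?_).symm
      exact congrArg Subtype.val (mul_inv_cancel (a ^ (2 * k)))
    have hunit : IsUnit (a ^ (2 * k)).1 := by
      refine (Matrix.isUnit_iff_isUnit_det _).2 ?_
      rw [(a ^ (2 * k)).2]
      exact isUnit_one
    rw [hinv, ← Matrix.exp_conj _ _ hunit, ← hinv]
    congr 1
    rw [hpow, hpowinv]
    ext i j
    rw [mul_diagonal, diagonal_mul, Matrix.smul_apply, smul_eq_mul, Matrix.of_apply]
    have h1 : Real.exp (2 * k * (Real.log (α i) - Real.log (α j) - M))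
        = α i ^ (2 * k) * (α j ^ (2 * k))⁻¹ * Real.exp (-(2 * k * M)) := by
      have hp : ∀ i, α i ^ (2 * k) = Real.exp (2 * k * Real.log (α i)) := by
        intro i
        have h3 : α i ^ (2 * k) = |α i| ^ (2 * k) := by
          rw [pow_mul, pow_mul, sq_abs]
        rw [h3, ← Real.log_abs, ← Real.exp_log (abs_pos.2 (hα i)), Real.log_exp, ← Real.exp_nat_mul]
        push_cast
        rfl
      rw [hp i, hp j, ← Real.exp_neg, ← Real.exp_add, ← Real.exp_add]
      congr 1
      ring
    rw [h1]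
    ring
  have hlim : Tendsto (fun k : ℕ => (Matrix.of fun i j =>
      Real.exp (2 * k * (Real.log (α i) - Real.log (α j) - M)) * (s * Y i j) :
        Matrix (Fin n) (Fin n) ℝ)) atTop (𝓝 (s • topPart α M Y)) := by
    refine tendsto_pi_nhds.2 fun i => tendsto_pi_nhds.2 fun j => ?_
    show Tendsto (fun k : ℕ => Real.exp (2 * k * (Real.log (α i) - Real.log (α j) - M))
      * (s * Y i j)) atTop (𝓝 ((s • topPart α M Y) i j))
    rw [Matrix.smul_apply, topPart, Matrix.of_apply, smul_eq_mul]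
    by_cases h : Real.log (α i) - Real.log (α j) = M
    · rw [if_pos h, h]
      simp
    · rw [if_neg h, mul_zero]
      by_cases h0 : Y i j = 0
      · rw [h0]
        simp
      · have hlt : Real.log (α i) - Real.log (α j) - M < 0 := by
          have := lt_of_le_of_ne (hY i j h0) h
          linarith
        have h1 : Tendsto (fun k : ℕ => Real.exp (2 * k *
            (Real.log (α i) - Real.log (α j) - M))) atTop (𝓝 0) := by
          refine Real.tendsto_exp_atBot.comp ?_
          refine Tendsto.atTop_mul_const_of_neg hlt ?_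
          exact tendsto_natCast_atTop_atTop.const_mul_atTop (by norm_num)
        simpa using h1.mul_const (s * Y i j)
  have hE : Tendsto (fun k => (v k).1) atTop (𝓝 (NormedSpace.exp (s • topPart α M Y))) := by
    simp_rw [hvval]
    exact (top_exp_cont.tendsto _).comp hlim
  have hcle : IsClosedEmbedding (fun A : SpecialLinearGroup (Fin n) ℝ =>
      (A : Matrix (Fin n) (Fin n) ℝ)) := SpecialLinearGroup.isClosedEmbedding_val
  obtain ⟨u, hu⟩ : NormedSpace.exp (s • topPart α M Y) ∈ range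
      (fun A : SpecialLinearGroup (Fin n) ℝ => (A : Matrix (Fin n) (Fin n) ℝ)) :=
    hcle.isClosed_range.mem_of_tendsto hE (Eventually.of_forall fun k => ⟨v k, rfl⟩)
  refine ⟨u, ?_, hu⟩
  have hvlim : Tendsto v atTop (𝓝 u) := by
    rw [hcle.isInducing.tendsto_nhds_iff]
    show Tendsto (fun k => (v k).1) atTop (𝓝 ((fun A : SpecialLinearGroup (Fin n) ℝ =>
      (A : Matrix (Fin n) (Fin n) ℝ)) u))
    rw [hu]
    exact hE
  exact hcl.mem_of_tendsto hvlim (Eventually.of_forall hv)

theorem top_mem (S : Subgroup (SpecialLinearGroup (Fin n) ℝ))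
    (hcl : IsClosed (S : Set (SpecialLinearGroup (Fin n) ℝ))) (α : Fin n → ℝ)
    (a : SpecialLinearGroup (Fin n) ℝ) (ha : a.1 = diagonal α)
    (Y : Matrix (Fin n) (Fin n) ℝ) (b : ℝ → SpecialLinearGroup (Fin n) ℝ)
    (hb : ∀ s, (b s).1 = NormedSpace.exp (s • Y)) (hSa : ∀ u ∈ S, a * u * a⁻¹ ∈ S)
    (hSb : ∀ s, b s ∈ S)
    (M : ℝ) (hY : ∀ i j, Y i j ≠ 0 → Real.log (α i) - Real.log (α j) ≤ M)
    (s : ℝ) (u : SpecialLinearGroup (Fin n) ℝ) (hu : u.1 = NormedSpace.exp (s • topPart α M Y)) :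
    u ∈ S := by
  obtain ⟨u', hu', he⟩ := top_exists S hcl α a ha Y b hb hSa hSb M hY s
  have : u = u' := Subtype.ext (hu.trans he.symm)
  rwa [this]

/-- powers of the part of weight `M` -/
lemma topPart_pow (α : Fin n → ℝ) (M : ℝ) (Y : Matrix (Fin n) (Fin n) ℝ) (k : ℕ) (i j : Fin n)
    (h : (topPart α M Y ^ k) i j ≠ 0) : Real.log (α i) - Real.log (α j) = k * M := by
  induction k generalizing i j with
  | zero =>
    rw [pow_zero] at h
    have hij : i = j := by
      by_contra hij
      exact h (Matrix.one_apply_ne hij)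
    rw [hij]
    simp
  | succ k ih =>
    rw [pow_succ, Matrix.mul_apply] at h
    obtain ⟨l, _, hl⟩ := Finset.exists_ne_zero_of_sum_ne_zero h
    have h1 := ih i l (left_ne_zero_of_mul hl)
    have h2 : topPart α M Y l j ≠ 0 := right_ne_zero_of_mul hl
    have h3 : Real.log (α l) - Real.log (α j) = M := by
      by_contra h3
      apply h2
      rw [topPart, Matrix.of_apply, if_neg h3]
    push_cast
    linarith

lemma topPart_nilpotent (α : Fin n → ℝ) (M : ℝ) (hM : 0 < M) (Y : Matrix (Fin n) (Fin n) ℝ) :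
    IsNilpotent (topPart α M Y) := by
  obtain ⟨K, hK⟩ : ∃ K : ℕ, ∀ i j, Real.log (α i) - Real.log (α j) < K * M := by
    have h1 : ∃ B : ℝ, ∀ p : Fin n × Fin n, Real.log (α p.1) - Real.log (α p.2) ≤ B := by
      obtain ⟨B, hB⟩ := (Set.finite_range (fun p : Fin n × Fin n =>
        Real.log (α p.1) - Real.log (α p.2))).bddAbove
      exact ⟨B, fun p => hB ⟨p, rfl⟩⟩
    obtain ⟨B, hB⟩ := h1
    obtain ⟨K, hK⟩ := exists_nat_gt (B / M)
    refine ⟨K, fun i j => ?_⟩
    have h2 : B < K * M := by rwa [div_lt_iff₀ hM] at hK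
    exact lt_of_le_of_lt (hB (i, j)) h2
  refine ⟨K, ?_⟩
  ext i j
  by_contra h
  have := topPart_pow α M Y K i j h
  exact (hK i j).ne this

/-- commutator of transvections -/
lemma trans_comm {i k j : Fin n} (hik : i ≠ k) (hkj : k ≠ j) (hij : i ≠ j) (s t : ℝ) :
    SpecialLinearGroup.transvection hik s * SpecialLinearGroup.transvection hkj t *
      SpecialLinearGroup.transvection hik (-s) * SpecialLinearGroup.transvection hkj (-t)
      = SpecialLinearGroup.transvection hij (s * t) := by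
  apply Subtype.ext
  show (1 + Matrix.single i k s) * (1 + Matrix.single k j t) * (1 + Matrix.single i k (-s)) *
    (1 + Matrix.single k j (-t)) = 1 + Matrix.single i j (s * t)
  have hS : ∀ (p q : Fin n) (c : ℝ), Matrix.single p q c = c • Matrix.single p q (1 : ℝ) := by
    intro p q c
    rw [Matrix.smul_single, smul_eq_mul, mul_one]
  rw [hS i k s, hS k j t, hS i k (-s), hS k j (-t), hS i j (s * t)]
  set P := Matrix.single i k (1 : ℝ) with hP
  set Q := Matrix.single k j (1 : ℝ) with hQ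
  set R := Matrix.single i j (1 : ℝ) with hR
  have hPQ : P * Q = R := by simp [hP, hQ, hR]
  have hPP : P * P = 0 := by simp [hP, hik.symm]
  have hQQ : Q * Q = 0 := by simp [hQ, hkj.symm]
  have hQP : Q * P = 0 := by simp [hP, hQ, hij.symm]
  have hRP : R * P = 0 := by simp [hR, hP, hij.symm]
  have hRQ : R * Q = 0 := by simp [hR, hQ, hkj.symm]
  simp only [add_mul, mul_add, one_mul, mul_one, smul_mul_assoc, mul_smul_comm, hPQ, hPP, hQQ, hQP,
    hRP, hRQ, smul_zero, zero_mul]
  module

/-- `i` minus `j` weight. -/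
def topw (i j : Fin n) : Fin n → ℝ := fun k => (if k = i then 1 else 0) - (if k = j then 1 else 0)

lemma topw_sum (i j : Fin n) : ∑ k, topw i j k = 0 := by
  unfold topw
  rw [Finset.sum_sub_distrib, Finset.sum_ite_eq' Finset.univ i, Finset.sum_ite_eq' Finset.univ j]
  simp

lemma topw_le {j l p q : Fin n} (hjl : j ≠ l) (h : ¬ (p = j ∧ q = l)) :
    topw j l p - topw j l q ≤ 1 := by
  unfold topw
  by_cases h1 : p = j
  · by_cases h2 : q = l
    · exact absurd ⟨h1, h2⟩ h
    · have h3 : ¬ p = l := fun h => hjl (h1.symm.trans h)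
      rw [if_pos h1, if_neg h2, if_neg h3]
      by_cases h4 : q = j
      · rw [if_pos h4]; norm_num
      · rw [if_neg h4]; norm_num
  · rw [if_neg h1]
    by_cases h3 : p = l
    · rw [if_pos h3]
      by_cases h4 : q = j
      · rw [if_pos h4]
        by_cases h5 : q = l
        · rw [if_pos h5]; norm_num
        · rw [if_neg h5]; norm_num
      · rw [if_neg h4]
        by_cases h5 : q = l
        · rw [if_pos h5]; norm_num
        · rw [if_neg h5]; norm_num
    · rw [if_neg h3]
      by_cases h4 : q = j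
      · rw [if_pos h4]
        by_cases h5 : q = l
        · rw [if_pos h5]; norm_num
        · rw [if_neg h5]; norm_num
      · rw [if_neg h4]
        by_cases h5 : q = l
        · rw [if_pos h5]; norm_num
        · rw [if_neg h5]; norm_num

lemma root_mem (S : Subgroup (SpecialLinearGroup (Fin n) ℝ))
    (hcl : IsClosed (S : Set (SpecialLinearGroup (Fin n) ℝ))) (hD : ∀ d, IsPosDiag d → d ∈ S)
    (Y : Matrix (Fin n) (Fin n) ℝ) (b : ℝ → SpecialLinearGroup (Fin n) ℝ)
    (hb : ∀ s, (b s).1 = NormedSpace.exp (s • Y)) (hSb : ∀ s, b s ∈ S) (i j : Fin n) (hij : i ≠ j)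
    (hY : Y i j ≠ 0) (s : ℝ) : SpecialLinearGroup.transvection hij s ∈ S := by
  have hdet : (diagonal (fun k => Real.exp (topw i j k)) : Matrix (Fin n) (Fin n) ℝ).det = 1 := by
    rw [det_diagonal, ← Real.exp_sum, topw_sum, Real.exp_zero]
  let a : SpecialLinearGroup (Fin n) ℝ := ⟨diagonal (fun k => Real.exp (topw i j k)), hdet⟩
  have haS : a ∈ S := by
    refine hD a ⟨fun p q hpq => diagonal_apply_ne _ hpq, fun p => ?_⟩
    show 0 < (diagonal (fun k => Real.exp (topw i j k)) : Matrix (Fin n) (Fin n) ℝ) p p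
    rw [diagonal_apply_eq]
    exact Real.exp_pos _
  have htop : topw i j i - topw i j j = 2 := by
    unfold topw
    rw [if_pos rfl, if_neg hij, if_neg hij.symm, if_pos rfl]
    norm_num
  refine top_mem S hcl (fun k => Real.exp (topw i j k)) a rfl Y b hb
    (fun u hu => S.mul_mem (S.mul_mem haS hu) (S.inv_mem haS)) hSb 2 ?_ (s / Y i j) _ ?_
  · intro p q _
    rw [Real.log_exp, Real.log_exp]
    by_cases h : p = i ∧ q = j
    · rw [h.1, h.2, htop]
    · exact (topw_le hij h).trans (by norm_num)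
  · have h1 : (s / Y i j) • topPart (fun k => Real.exp (topw i j k)) 2 Y = Matrix.single i j s := by
      ext p q
      rw [Matrix.smul_apply, topPart, Matrix.of_apply, Real.log_exp, Real.log_exp, smul_eq_mul,
        Matrix.single_apply]
      by_cases h : i = p ∧ j = q
      · obtain ⟨rfl, rfl⟩ := h
        rw [if_pos htop, if_pos ⟨rfl, rfl⟩]
        field_simp
      · rw [if_neg h, if_neg, mul_zero]
        intro h2
        have := topw_le hij (fun h' => h ⟨h'.1.symm, h'.2.symm⟩ : ¬ (p = i ∧ q = j))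
        linarith
    rw [h1, top_exp_sq]
    · rfl
    · rw [Matrix.single_mul_single_of_ne]
      exact hij.symm

theorem path_mem (S : Subgroup (SpecialLinearGroup (Fin n) ℝ))
    (hcl : IsClosed (S : Set (SpecialLinearGroup (Fin n) ℝ))) (hD : ∀ d, IsPosDiag d → d ∈ S)
    (Y : Matrix (Fin n) (Fin n) ℝ) (b : ℝ → SpecialLinearGroup (Fin n) ℝ)
    (hb : ∀ s, (b s).1 = NormedSpace.exp (s • Y)) (hSb : ∀ s, b s ∈ S) (i j : Fin n) (hij : i ≠ j)
    (hpath : Relation.ReflTransGen (fun p q => Y p q ≠ 0) i j) (s : ℝ) :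
    SpecialLinearGroup.transvection hij s ∈ S := by
  revert s hij
  induction hpath with
  | refl => intro hij; exact absurd rfl hij
  | @tail k j hik hkj ih =>
    intro hij s
    by_cases h1 : k = j
    · subst h1
      exact ih hij s
    · have hk := root_mem S hcl hD Y b hb hSb k j h1 hkj
      by_cases h2 : i = k
      · subst h2
        exact hk s
      · have e := trans_comm h2 h1 hij s 1
        rw [mul_one] at e
        rw [← e]
        exact S.mul_mem (S.mul_mem (S.mul_mem (ih h2 s) (hk 1)) (ih h2 (-s))) (hk (-1))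

end Pool.Agent.Work.MP_67388f_an
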