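import Pool.Agent.Work.MP_67388f_an.HZ.Maut
import Pool.Agent.Work.MP_67388f_an.HZ.Mean
import Pool.Agent.Work.MP_67388f_an.HZ.Smooth
import Pool.Agent.Work.MP_67388f_an.HZ.Irr
import Pool.Agent.Work.MP_67388f_an.HZ.Cell
import Pool.Agent.Work.MP_67388f_an.HZ.Top
import Pool.Agent.Work.MP_67388f_an.Cartan

set_option autoImplicit false

namespace Pool.Agent.Work.MP_67388f_an

open MeasureTheory Filter Topology Matrix Set
open scoped ENNReal

variable {n : ℕ} {H : Type*} [Group H] [TopologicalSpace H] [IsTopologicalGroup H]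
variable {X : Type*} [TopologicalSpace X] [LocallyCompactSpace X] [T2Space X]
  [SecondCountableTopology X] [MeasurableSpace X] [BorelSpace X]
  [MulAction (SpecialLinearGroup (Fin n) ℝ × H) X]
  [ContinuousSMul (SpecialLinearGroup (Fin n) ℝ × H) X]

omit [IsTopologicalGroup H] in
/-- the inner integral -/
lemma haar_inner (μ : Measure X) [IsProbabilityMeasure μ] (f : C(X, ℝ)) (hf : HasCompactSupport f)
    (e : ℝ) (v s : SpecialLinearGroup (Fin n) ℝ × H) (hs : μ.map (fun z => s • z) = μ)
    (hv : ∀ z, |f (v • z) - f z| < e) :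
    |∫ x, f (v • s • x) ∂μ - ∫ x, f x ∂μ| ≤ e := by
  have h1 : ∫ x, f (v • s • x) ∂μ = ∫ x, f (v • x) ∂μ :=
    integral_inv hs (⟨fun z => f (v • z), f.continuous.comp (continuous_const_smul _)⟩ : C(X, ℝ))
  have hcs : HasCompactSupport (fun z : X => f (v • z)) :=
    hf.comp_homeomorph (Homeomorph.smul v)
  have hi1 : Integrable (fun z => f (v • z)) μ :=
    (f.continuous.comp (continuous_const_smul v)).integrable_of_hasCompactSupport hcs
  have hi2 : Integrable (fun z => f z) μ := f.continuous.integrable_of_hasCompactSupport hf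
  rw [h1, ← integral_sub hi1 hi2]
  calc |∫ x, (f (v • x) - f x) ∂μ| ≤ ∫ x, |f (v • x) - f x| ∂μ := abs_integral_le_integral_abs
    _ ≤ ∫ _x, e ∂μ := integral_mono (hi1.sub hi2).abs (integrable_const e) fun z => (hv z).le
    _ = e := by simp

/-- A probability measure on an irreducible homogeneous space of `SL(n, ℝ) × H` which is invariant
under the positive diagonal group and under the unipotent radical of a maximal parabolic subgroup
is the Haar measure. -/
theorem haar_of_inv [LocallyCompactSpace H] [SecondCountableTopology H] [T2Space H]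
    (htrans : ∀ x y : X, ∃ g : SpecialLinearGroup (Fin n) ℝ × H, g • x = y) (m : Measure X)
    [IsProbabilityMeasure m]
    (hm : ∀ g : SpecialLinearGroup (Fin n) ℝ × H, m.map (fun z => g • z) = m)
    (hdense : ∀ x : X, Dense {y : X | ∃ g : SpecialLinearGroup (Fin n) ℝ, (g, (1 : H)) • x = y})
    (μ : Measure X) [IsProbabilityMeasure μ] (I : Finset (Fin n)) (i₀ j₀ : Fin n) (hi₀ : i₀ ∈ I)
    (hj₀ : j₀ ∉ I)
    (S : Subgroup (SpecialLinearGroup (Fin n) ℝ))
    (hSμ : ∀ g ∈ S, μ.map (fun z => (g, (1 : H)) • z) = μ)
    (hD : ∀ d : SpecialLinearGroup (Fin n) ℝ, IsPosDiag d → d ∈ S)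
    (hU : ∀ i ∈ I, ∀ j ∉ I, ∀ (hij : i ≠ j) (s : ℝ), SpecialLinearGroup.transvection hij s ∈ S) :
    μ = m := by
  classical
  -- the diagonal element
  set c : ℝ := (I.card : ℝ) with hc
  set d : ℝ := (n : ℝ) - c with hd
  have hc0 : 0 < c := by
    rw [hc]
    exact_mod_cast Finset.card_pos.2 ⟨i₀, hi₀⟩
  have hd0 : 0 < d := by
    rw [hd, hc]
    have h1 : I.card < n := by
      have h2 : I ⊂ Finset.univ := by
        rw [Finset.ssubset_univ_iff]
        rintro rfl
        exact hj₀ (Finset.mem_univ _)
      simpa using Finset.card_lt_card h2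
    have : (I.card : ℝ) < n := by exact_mod_cast h1
    linarith
  set w : Fin n → ℝ := fun i => if i ∈ I then d else -c with hw
  have hwsum : ∑ i, w i = 0 := by
    rw [hw]
    simp only
    rw [Finset.sum_ite]
    simp only [Finset.sum_const, nsmul_eq_mul]
    have h1 : (Finset.univ.filter (fun i => i ∈ I)) = I := by ext; simp
    have h2 : ((Finset.univ.filter (fun i => ¬ i ∈ I)).card : ℝ) = d := by
      have h3 : (Finset.univ.filter (fun i => ¬ i ∈ I)) = Iᶜ := by ext; simp
      rw [h3, Finset.card_compl, Fintype.card_fin, Nat.cast_sub]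
      simpa using Finset.card_le_univ I
    rw [h1, h2, ← hc]
    ring
  set α : Fin n → ℝ := fun i => Real.exp (w i) with hα
  have hdet : (diagonal α : Matrix (Fin n) (Fin n) ℝ).det = 1 := by
    rw [det_diagonal, hα, ← Real.exp_sum, hwsum, Real.exp_zero]
  let a : SpecialLinearGroup (Fin n) ℝ := ⟨diagonal α, hdet⟩
  have haS : a ∈ S := by
    refine hD a ⟨fun p q hpq => diagonal_apply_ne _ hpq, fun p => ?_⟩
    show 0 < (diagonal α : Matrix (Fin n) (Fin n) ℝ) p p
    rw [diagonal_apply_eq]
    exact Real.exp_pos _
  have hαlt : α j₀ < α i₀ := by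
    rw [hα]
    refine Real.exp_lt_exp.2 ?_
    rw [hw]
    simp only [if_pos hi₀, if_neg hj₀]
    linarith
  -- ergodicity
  let io : SpecialLinearGroup (Fin n) ℝ →* SpecialLinearGroup (Fin n) ℝ × H :=
    MonoidHom.inl _ _
  have hio : Continuous io := by
    show Continuous (fun g : SpecialLinearGroup (Fin n) ℝ => (g, (1 : H)))
    fun_prop
  have hnorm : io.range.Normal := by
    constructor
    rintro _ ⟨g, rfl⟩ h
    refine ⟨h.1 * g * h.1⁻¹, ?_⟩
    apply Prod.ext
    · rfl
    · show (1 : H) = h.2 * 1 * h.2⁻¹
      rw [mul_one, mul_inv_cancel]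
  have hergm : ∀ s : Set X, MeasurableSet s → (∀ g, (fun z => io g • z) ⁻¹' s =ᵐ[m] s) →
      m s = 0 ∨ m sᶜ = 0 := by
    intro s hs hinv
    refine dense_ergodic io.range htrans m hm ?_ s hs ?_
    · intro x
      have e : {y : X | ∃ g ∈ io.range, g • x = y}
          = {y : X | ∃ g : SpecialLinearGroup (Fin n) ℝ, (g, (1 : H)) • x = y} := by
        ext y
        constructor
        · rintro ⟨_, ⟨g, rfl⟩, h⟩
          exact ⟨g, h⟩
        · rintro ⟨g, h⟩
          exact ⟨_, ⟨g, rfl⟩, h⟩
      rw [e]
      exact hdense x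
    · rintro _ ⟨g, rfl⟩
      exact hinv g
  have hconst := mautner_const io hio m (fun g => hm _) hergm α (fun i => Real.exp_pos _)
    ⟨i₀, j₀, hαlt.ne'⟩ a rfl
  -- Haar measure on the group
  let _ : MeasurableSpace (SpecialLinearGroup (Fin n) ℝ × H) := borel _
  have : BorelSpace (SpecialLinearGroup (Fin n) ℝ × H) := ⟨rfl⟩
  let lam : Measure (SpecialLinearGroup (Fin n) ℝ × H) := Measure.haar
  have : T2Space (SpecialLinearGroup (Fin n) ℝ) :=
    SpecialLinearGroup.isClosedEmbedding_val.isEmbedding.t2Space
  refine Measure.ext_of_integral_eq_on_compactlySupported (fun f => ?_)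
  set fc : C(X, ℝ) := f.toContinuousMap with hfc
  obtain ⟨C, hC⟩ := f.hasCompactSupport.exists_bound_of_continuous f.continuous
  have key : ∀ e : ℝ, 0 < e → |∫ z, f z ∂m - ∫ z, f z ∂μ| ≤ e := by
    intro e he
    have hun := unif_action (G := SpecialLinearGroup (Fin n) ℝ × H) fc f.hasCompactSupport e he
    rw [nhds_prod_eq, Filter.eventually_prod_iff] at hun
    obtain ⟨pV, hV, pW, hW, hVW⟩ := hun
    have hcell := cell I α (fun i => Real.exp_pos _) ?_ ?_ ?_ a rfl S hU {g | pV g} hV
    · have hB1 : ∀ᶠ g in 𝓝 (1 : SpecialLinearGroup (Fin n) ℝ × H),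
          (∃ p u : SpecialLinearGroup (Fin n) ℝ, g.1 = p * u ∧ u ∈ S ∧
            ∀ k : ℕ, a ^ k * p * (a ^ k)⁻¹ ∈ {g | pV g}) ∧ pW g.2 := by
        have h1 := (continuous_fst.tendsto (1 : SpecialLinearGroup (Fin n) ℝ × H)).eventually hcell
        have h2 := (continuous_snd.tendsto (1 : SpecialLinearGroup (Fin n) ℝ × H)).eventually hW
        exact h1.and h2
      obtain ⟨B, hBn, hBsub, hBc⟩ := local_compact_nhds (x := (1 : SpecialLinearGroup (Fin n) ℝ × H))
        hB1
      have hBm : MeasurableSet B := hBc.isClosed.measurableSet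
      have hBfin : lam B ≠ ∞ := hBc.measure_lt_top.ne
      have hBpos : 0 < lam B := lam.measure_pos_of_mem_nhds hBn
      have : IsFiniteMeasure (lam.restrict B) := ⟨by
        rw [Measure.restrict_apply_univ]; exact hBfin.lt_top⟩
      have hact : Measurable (fun p : (SpecialLinearGroup (Fin n) ℝ × H) × X => p.1 • p.2) :=
        (continuous_smul).measurable
      set μ' : Measure X := ((lam.restrict B).prod μ).map (fun p => p.1 • p.2) with hμ'
      have : IsFiniteMeasure μ' := Measure.isFiniteMeasure_map _ _
      -- absolute continuity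
      have hac : μ' ≪ m := by
        refine Measure.AbsolutelyContinuous.mk fun E hE h0 => ?_
        rw [hμ', Measure.map_apply hact hE, Measure.prod_apply_symm (hact hE)]
        rw [lintegral_eq_zero_iff (measurable_measure_prodMk_right (hact hE))]
        refine Eventually.of_forall fun x => ?_
        have h1 := orbit_null lam htrans m hm E hE h0 x
        show (lam.restrict B) {g | g • x ∈ E} = 0
        exact Measure.absolutelyContinuous_of_le Measure.restrict_le_self h1
      set F : X → ℝ := fun x => (μ'.rnDeriv m x).toReal with hF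
      have hFint : Integrable F m := Measure.integrable_toReal_rnDeriv
      have hFmass : ∫ x, F x ∂m = lam.real B := by
        rw [hF, Measure.integral_toReal_rnDeriv hac, hμ', measureReal_def, measureReal_def,
          Measure.map_apply hact MeasurableSet.univ, preimage_univ, ← univ_prod_univ,
          Measure.prod_prod, Measure.restrict_apply_univ, measure_univ, mul_one]
      set β : ℝ := lam.real B with hβ
      have hβpos : 0 < β := by
        rw [hβ, measureReal_def]
        exact ENNReal.toReal_pos hBpos.ne' hBfin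
      -- the terms
      have hterm : ∀ k : ℕ, |∫ x, f (io a ^ k • x) * F x ∂m - β * ∫ x, f x ∂μ| ≤ e * β := by
        intro k
        have h1 : ∫ x, f (io a ^ k • x) * F x ∂m = ∫ y, f (io a ^ k • y) ∂μ' := by
          rw [← integral_rnDeriv_smul hac]
          refine integral_congr_ae (Eventually.of_forall fun x => ?_)
          show f (io a ^ k • x) * F x = F x • f (io a ^ k • x)
          rw [smul_eq_mul, mul_comm]
        have hcont : Continuous (fun p : (SpecialLinearGroup (Fin n) ℝ × H) × X =>
            f (io a ^ k • p.1 • p.2)) :=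
          f.continuous.comp ((continuous_const_smul _).comp continuous_smul)
        have h2 : ∫ y, f (io a ^ k • y) ∂μ'
            = ∫ g in B, (∫ x, f (io a ^ k • g • x) ∂μ) ∂lam := by
          have hmk : Measurable (fun y => f (io a ^ k • y)) :=
            (f.continuous.comp (continuous_const_smul _)).measurable
          rw [hμ', integral_map hact.aemeasurable hmk.aestronglyMeasurable]
          rw [integral_prod]
          refine Integrable.mono' (g := fun _ => C) (integrable_const C)
            hcont.measurable.aestronglyMeasurable (Eventually.of_forall fun p => hC _)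
        have hin : ∀ g ∈ B, |∫ x, f (io a ^ k • g • x) ∂μ - ∫ x, f x ∂μ| ≤ e := by
          intro g hg
          obtain ⟨⟨p, u, hgpu, huS, hp⟩, hgW⟩ := hBsub hg
          have hs : (a ^ k * u) ∈ S := S.mul_mem (S.pow_mem haS k) huS
          have h3 := haar_inner μ fc f.hasCompactSupport e (a ^ k * p * (a ^ k)⁻¹, g.2)
            (a ^ k * u, (1 : H)) (hSμ _ hs) (fun z => hVW (hp k) hgW z)
          have h4 : ∀ x : X, io a ^ k • g • x
              = ((a ^ k * p * (a ^ k)⁻¹, g.2) : SpecialLinearGroup (Fin n) ℝ × H) •
                ((a ^ k * u, (1 : H)) : SpecialLinearGroup (Fin n) ℝ × H) • x := by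
            intro x
            rw [smul_smul, smul_smul]
            congr 1
            rw [← map_pow]
            apply Prod.ext
            · show a ^ k * g.1 = a ^ k * p * (a ^ k)⁻¹ * (a ^ k * u)
              rw [hgpu]
              group
            · show 1 * g.2 = g.2 * 1
              rw [one_mul, mul_one]
          simp_rw [h4]
          exact h3
        have hmeasin : AEStronglyMeasurable (fun g => ∫ x, f (io a ^ k • g • x) ∂μ)
            (lam.restrict B) := by
          exact (hcont.stronglyMeasurable.integral_prod_right (ν := μ)).aestronglyMeasurable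
        have hint1 : Integrable (fun g => ∫ x, f (io a ^ k • g • x) ∂μ) (lam.restrict B) := by
          refine Integrable.mono' (g := fun _ => C) (integrable_const C) hmeasin
            (Eventually.of_forall fun g => ?_)
          calc ‖∫ x, f (io a ^ k • g • x) ∂μ‖ ≤ ∫ x, ‖f (io a ^ k • g • x)‖ ∂μ :=
                norm_integral_le_integral_norm _
            _ ≤ ∫ _x, C ∂μ := by
                refine integral_mono_of_nonneg (Eventually.of_forall fun _ => norm_nonneg _)
                  (integrable_const C) (Eventually.of_forall fun _ => hC _)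
            _ = C := by simp
        have h5 : β * ∫ x, f x ∂μ = ∫ _g in B, (∫ x, f x ∂μ) ∂lam := by
          rw [integral_const, smul_eq_mul, hβ, measureReal_restrict_apply_univ]
        rw [h1, h2, h5, ← integral_sub hint1 (integrable_const _)]
        calc |∫ g in B, ((∫ x, f (io a ^ k • g • x) ∂μ) - ∫ x, f x ∂μ) ∂lam|
            ≤ ∫ g in B, |(∫ x, f (io a ^ k • g • x) ∂μ) - ∫ x, f x ∂μ| ∂lam :=
              abs_integral_le_integral_abs
          _ ≤ ∫ _g in B, e ∂lam := by
              refine setIntegral_mono_on ?_ ?_ hBm hin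
              · exact (hint1.sub (integrable_const _)).abs
              · exact integrable_const e
          _ = e * β := by
              rw [integral_const, smul_eq_mul, measureReal_restrict_apply_univ, mul_comm]
      have hmean := mean_conv m (io a) (hm _) hconst f f.continuous.measurable C hC F hFint
      rw [hFmass] at hmean
      have hle : |(∫ x, f x ∂m) * β - β * ∫ x, f x ∂μ| ≤ e * β := by
        have h6 := (hmean.sub_const (β * ∫ x, f x ∂μ)).abs
        refine le_of_tendsto h6 ?_
        filter_upwards [eventually_gt_atTop 0] with K hK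
        have hK0 : (0 : ℝ) < K := by exact_mod_cast hK
        have h7 : (∑ k ∈ Finset.range K, ∫ x, f (io a ^ k • x) * F x ∂m) / K
            - β * ∫ x, f x ∂μ
            = (∑ k ∈ Finset.range K, (∫ x, f (io a ^ k • x) * F x ∂m
              - β * ∫ x, f x ∂μ)) / K := by
          rw [Finset.sum_sub_distrib, Finset.sum_const, Finset.card_range, nsmul_eq_mul]
          field_simp
        rw [h7, abs_div, abs_of_pos hK0, div_le_iff₀ hK0]
        calc |∑ k ∈ Finset.range K, (∫ x, f (io a ^ k • x) * F x ∂m - β * ∫ x, f x ∂μ)|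
            ≤ ∑ k ∈ Finset.range K, |∫ x, f (io a ^ k • x) * F x ∂m - β * ∫ x, f x ∂μ| :=
              Finset.abs_sum_le_sum_abs _ _
          _ ≤ ∑ _k ∈ Finset.range K, e * β := Finset.sum_le_sum fun k _ => hterm k
          _ = e * β * K := by
              rw [Finset.sum_const, Finset.card_range, nsmul_eq_mul]
              ring
      have h8 : (∫ x, f x ∂m) * β - β * ∫ x, f x ∂μ = (∫ x, f x ∂m - ∫ x, f x ∂μ) * β := by ring
      rw [h8, abs_mul, abs_of_pos hβpos] at hle
      exact le_of_mul_le_mul_right hle hβpos
    · intro i hi j hj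
      rw [hα, hw]
      simp only [if_pos hi, if_pos hj]
    · intro i hi j hj
      rw [hα, hw]
      simp only [if_neg hi, if_neg hj]
    · intro i hi j hj
      rw [hα, hw]
      simp only [if_pos hi, if_neg hj]
      exact Real.exp_le_exp.2 (by linarith)
  have h0 : |∫ z, f z ∂m - ∫ z, f z ∂μ| ≤ 0 :=
    le_of_forall_pos_le_add fun e he => by linarith [key e he]
  exact (sub_eq_zero.1 (abs_nonpos_iff.1 h0)).symm

end Pool.Agent.Work.MP_67388f_an
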