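import Pool.Agent.Work.MP_67388f_an.HZ.Haar
import Pool.Agent.Work.MP_67388f_an.HZ.Along
import Pool.Agent.Work.MP_67388f_an.TS.Count

set_option autoImplicit false

namespace Pool.Agent.Work.MP_67388f_an

open MeasureTheory Filter Topology Matrix Set
open scoped ENNReal

/-- A diagonal matrix with entries `exp (t i)`, `∑ t i = 0`. -/
lemma exists_posdiag {n : ℕ} (t : Fin n → ℝ) (ht : ∑ i, t i = 0) :
    ∃ d : SpecialLinearGroup (Fin n) ℝ, IsPosDiag d ∧ ∀ i, d i i = Real.exp (t i) := by
  refine ⟨⟨diagonal fun i => Real.exp (t i), ?_⟩, ⟨?_, ?_⟩, ?_⟩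
  · rw [det_diagonal, ← Real.exp_sum, ht, Real.exp_zero]
  · intro i j hij
    exact diagonal_apply_ne _ hij
  · intro i
    show 0 < (diagonal fun i => Real.exp (t i)) i i
    rw [diagonal_apply_eq]
    exact Real.exp_pos _
  · intro i
    exact diagonal_apply_eq _ i

/-- The characters of the full positive diagonal group are separated. -/
lemma class_of_full {n : ℕ} {H : Type*} [Group H]
    (A : Subgroup (SpecialLinearGroup (Fin n) ℝ × H))
    (hAD : ∀ d : SpecialLinearGroup (Fin n) ℝ, IsPosDiag d → (d, (1 : H)) ∈ A) (i k r s : Fin n)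
    (h : ∀ a ∈ A, |a.1 i i * a.1 s s| = |a.1 k k * a.1 r r|) (a : SpecialLinearGroup (Fin n) ℝ × H) :
    a.1 i i * a.1 s s = a.1 k k * a.1 r r := by
  classical
  have key : ∀ t : Fin n → ℝ, ∑ i, t i = 0 → t i + t s = t k + t r := by
    intro t ht
    obtain ⟨d, hd, hde⟩ := exists_posdiag t ht
    have h1 := h (d, 1) (hAD d hd)
    simp only [hde] at h1
    rw [← Real.exp_add, ← Real.exp_add, abs_of_pos (Real.exp_pos _), abs_of_pos (Real.exp_pos _)]
      at h1
    exact Real.exp_injective h1
  -- the combinatorial statement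
  have hcomb : (i = k ∧ s = r) ∨ (i = r ∧ s = k) := by
    by_contra hcon
    push Not at hcon
    set v : Fin n → ℝ := fun p => (if p = i then 1 else 0) + (if p = s then 1 else 0) -
      (if p = k then 1 else 0) - (if p = r then 1 else 0) with hv
    have hvs : ∑ p, v p = 0 := by
      rw [hv]
      simp only [Finset.sum_sub_distrib, Finset.sum_add_distrib, Finset.sum_ite_eq',
        Finset.mem_univ, if_true]
      norm_num
    have h1 := key v hvs
    have hvv : ∑ p, v p * v p = v i + v s - v k - v r := by
      have : ∀ p, v p * v p = (if p = i then v p else 0) + (if p = s then v p else 0) -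
          (if p = k then v p else 0) - (if p = r then v p else 0) := by
        intro p
        have e : v p * v p = v p * ((if p = i then 1 else 0) + (if p = s then 1 else 0) -
          (if p = k then 1 else 0) - (if p = r then 1 else 0)) := by rw [hv]
        rw [e]
        simp only [mul_sub, mul_add, mul_ite, mul_one, mul_zero]
      simp_rw [this]
      simp only [Finset.sum_sub_distrib, Finset.sum_add_distrib, Finset.sum_ite_eq',
        Finset.mem_univ, if_true]
    have h2 : ∑ p, v p * v p = 0 := by rw [hvv]; linarith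
    have h3 : ∀ p, v p = 0 := by
      intro p
      have := (Finset.sum_eq_zero_iff_of_nonneg (fun p _ => mul_self_nonneg (v p))).1 h2 p
        (Finset.mem_univ p)
      exact mul_self_eq_zero.1 this
    have h4 := h3 i
    have h5 := h3 s
    rw [hv] at h4 h5
    simp only [if_true] at h4 h5
    by_cases e1 : i = k
    · have e2 := hcon.1 e1
      subst e1
      by_cases e3 : s = i
      · subst e3
        simp only [if_true] at h4
        by_cases e4 : s = r
        · exact e2 e4
        · rw [if_neg e4] at h4
          norm_num at h4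
      · rw [if_neg e3, if_neg e2] at h5
        norm_num at h5
    · rw [if_neg e1] at h4
      by_cases e2 : i = r
      · have e3 := hcon.2 e2
        subst e2
        by_cases e4 : s = i
        · subst e4
          rw [if_pos rfl] at h4
          norm_num at h4
        · rw [if_neg e3, if_neg e4] at h5
          norm_num at h5
      · rw [if_neg e2] at h4
        by_cases e3 : i = s
        · rw [if_pos e3] at h4; norm_num at h4
        · rw [if_neg e3] at h4; norm_num at h4
  rcases hcomb with ⟨rfl, rfl⟩ | ⟨rfl, rfl⟩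
  · rfl
  · exact mul_comm _ _

variable {n : ℕ} {H : Type*} [Group H] [TopologicalSpace H] [IsTopologicalGroup H]
variable {X : Type*} [TopologicalSpace X] [LocallyCompactSpace X] [T2Space X]
  [SecondCountableTopology X] [MeasurableSpace X] [BorelSpace X]
  [MulAction (SpecialLinearGroup (Fin n) ℝ × H) X]
  [ContinuousSMul (SpecialLinearGroup (Fin n) ℝ × H) X]

/-- Haar dichotomy, countable form. -/
theorem haar_count [LocallyCompactSpace H] [SecondCountableTopology H] [T2Space H]
    (htrans : ∀ x y : X, ∃ g : SpecialLinearGroup (Fin n) ℝ × H, g • x = y)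
    (hdense : ∀ x : X, Dense {y : X | ∃ g : SpecialLinearGroup (Fin n) ℝ, (g, (1 : H)) • x = y})
    (m : Measure X) [IsProbabilityMeasure m]
    (hm : ∀ g : SpecialLinearGroup (Fin n) ℝ × H, m.map (fun z => g • z) = m)
    (A : Subgroup (SpecialLinearGroup (Fin n) ℝ × H)) (hA : ∀ a ∈ A, ∀ i j, i ≠ j → a.1 i j = 0)
    (hAD : ∀ d : SpecialLinearGroup (Fin n) ℝ, IsPosDiag d → (d, (1 : H)) ∈ A)
    (μ : Measure X) [IsProbabilityMeasure μ]
    (hμ : ∀ a ∈ A, μ.map (fun z => a • z) = μ)
    (herg : ∀ s : Set X, MeasurableSet s → (∀ a ∈ A, (fun z => a • z) ⁻¹' s =ᵐ[μ] s) →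
      μ s = 0 ∨ μ sᶜ = 0)
    (Y : Matrix (Fin n) (Fin n) ℝ) (b : ℝ → SpecialLinearGroup (Fin n) ℝ)
    (hb : ∀ s, (b s).1 = NormedSpace.exp (s • Y)) (I : Set (Fin n)) (hI : I.Nonempty)
    (hI' : Iᶜ.Nonempty)
    (hreach : ∀ i ∈ I, ∀ j ∉ I, Relation.ReflTransGen (fun p q => Y p q ≠ 0) i j) :
    μ = m ∨ ∀ ν : Measure X, IsFiniteMeasure ν →
      {s : ℝ | ¬ (μ.map (fun z => (b s, (1 : H)) • z)) ⟂ₘ ν}.Countable := by
  classical
  have hbc := expcurve_cont Y b hb
  have hadd := expcurve_add Y b hb
  have h0 : b 0 = 1 := by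
    have := hadd 0 0
    rw [add_zero] at this
    exact (mul_eq_left.1 this.symm)
  have hneg : ∀ t, b (-t) = (b t)⁻¹ := by
    intro t
    rw [eq_inv_iff_mul_eq_one, ← hadd, neg_add_cancel, h0]
  set St : Subgroup (SpecialLinearGroup (Fin n) ℝ) :=
    (stb (G := SpecialLinearGroup (Fin n) ℝ × H) μ).comap (MonoidHom.inl _ H) with hSt
  have hStcl : IsClosed (St : Set (SpecialLinearGroup (Fin n) ℝ)) :=
    (stb_closed μ).preimage (continuous_id.prodMk continuous_const)
  let T : AddSubgroup ℝ :=
    { carrier := {t | b t ∈ St}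
      zero_mem' := by
        show b 0 ∈ St
        rw [h0]; exact one_mem _
      add_mem' := by
        intro s t hs ht
        show b (s + t) ∈ St
        rw [hadd]; exact mul_mem hs ht
      neg_mem' := by
        intro t ht
        show b (-t) ∈ St
        rw [hneg]; exact inv_mem ht }
  have hTcl : IsClosed (T : Set ℝ) := hStcl.preimage hbc
  have hcase : (∀ s, b s ∈ St) ∨ (T : Set ℝ).Countable := by
    rcases AddSubgroup.dense_or_cyclic T with hd | ⟨a, ha⟩
    · left
      intro t
      have h1 : (T : Set ℝ) = Set.univ := by rw [← hTcl.closure_eq]; exact hd.closure_eq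
      have ht : t ∈ (T : Set ℝ) := by rw [h1]; exact Set.mem_univ t
      exact ht
    · right
      rw [ha, ← AddSubgroup.zmultiples_eq_closure]
      have : ((AddSubgroup.zmultiples a : AddSubgroup ℝ) : Set ℝ)
          = Set.range (fun k : ℤ => k • a) := by
        ext x; simp [AddSubgroup.mem_zmultiples_iff]
      rw [this]
      exact Set.countable_range _
  rcases hcase with h | hTc
  · left
    obtain ⟨i₀, hi₀⟩ := hI
    obtain ⟨j₀, hj₀⟩ := hI'
    have hD : ∀ d : SpecialLinearGroup (Fin n) ℝ, IsPosDiag d → d ∈ St := fun d hd =>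
      hμ _ (hAD d hd)
    refine haar_of_inv htrans m hm hdense μ (Finset.univ.filter (fun i => i ∈ I)) i₀ j₀
      (by simpa using hi₀) (by simpa using hj₀) St (fun g hg => hg) hD ?_
    intro i hi j hj hij s
    exact path_mem St hStcl hD Y b hb h i j hij (hreach i (by simpa using hi) j (by simpa using hj)) s
  · right
    intro ν hν
    have hsl : SecondCountableTopology (SpecialLinearGroup (Fin n) ℝ) := sl_second
    have hcount := countable_translates (G := SpecialLinearGroup (Fin n) ℝ × H)
      (MonoidHom.inl (SpecialLinearGroup (Fin n) ℝ) H) μ (by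
      intro F hF hF0 l hl htv
      refine tv_rigid_abs (G := SpecialLinearGroup (Fin n) ℝ × H)
        (MonoidHom.id (SpecialLinearGroup (Fin n) ℝ)) (MonoidHom.inl _ H) (MonoidHom.fst _ H)
        IsClosedEmbedding.id (continuous_id.prodMk continuous_const)
        (by
          intro g u
          apply Prod.ext
          · rfl
          · show g.2 * 1 * g.2⁻¹ = 1
            rw [mul_one, mul_inv_cancel])
        A μ hμ herg (fun a ha i k hik => hA a ha i k hik)
        (fun i k r s h a _ => class_of_full A hAD i k r s h a) (μ.restrict F) ?_ l hl htv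
      rintro ⟨t, ht, h1, h2⟩
      apply hF0
      rw [Measure.restrict_apply ht.compl] at h2
      refine measure_mono_null (t := t ∪ (tᶜ ∩ F)) ?_ (measure_union_null h1 h2)
      intro x hx
      by_cases hxt : x ∈ t
      · exact Or.inl hxt
      · exact Or.inr ⟨hxt, hx⟩) (continuous_id.prodMk continuous_const) ν
    refine (hcount.biUnion (t := fun y _ => {s : ℝ | μ.map (fun z => (b s, (1 : H)) • z) = y})
      ?_).mono ?_
    · intro y _
      by_cases hne : ∃ s₀ : ℝ, μ.map (fun z => (b s₀, (1 : H)) • z) = y
      · obtain ⟨s₀, hs₀⟩ := hne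
        refine (hTc.image fun t => s₀ + t).mono ?_
        intro s hs
        refine ⟨-s₀ + s, ?_, by simp⟩
        show b (-s₀ + s) ∈ St
        rw [hadd, hneg]
        show μ.map (fun z => ((b s₀)⁻¹ * b s, (1 : H)) • z) = μ
        have h1 : μ.map (fun z => (b s, (1 : H)) • z) = μ.map (fun z => (b s₀, (1 : H)) • z) :=
          hs.trans hs₀.symm
        have h2 : ((b s₀)⁻¹ * b s, (1 : H)) = ((b s₀, (1 : H)))⁻¹ * (b s, (1 : H)) := by
          apply Prod.ext
          · rfl
          · show (1 : H) = 1⁻¹ * 1
            rw [inv_one, one_mul]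
        rw [h2, ← map_map_smul, h1, map_map_smul, inv_mul_cancel]
        have : (fun z : X => (1 : SpecialLinearGroup (Fin n) ℝ × H) • z) = id := by
          funext z
          exact one_smul (SpecialLinearGroup (Fin n) ℝ × H) z
        rw [this, Measure.map_id]
      · have : {s : ℝ | μ.map (fun z => (b s, (1 : H)) • z) = y} = ∅ := by
          ext s
          simp only [mem_ofPred_eq, mem_empty_iff_false, iff_false]
          exact fun h => hne ⟨s, h⟩
        rw [this]
        exact Set.countable_empty
    · intro s hs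
      exact mem_biUnion (x := μ.map (fun z => (b s, (1 : H)) • z)) ⟨b s, rfl, hs⟩ rfl

end Pool.Agent.Work.MP_67388f_an
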