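import Pool.Agent.Work.MP_67388f_an.HZ.Haar
import Pool.Agent.Work.MP_67388f_an.HZ.Along

set_option autoImplicit false

namespace Pool.Agent.Work.MP_67388f_an

open MeasureTheory Filter Topology Matrix Set
open scoped ENNReal

variable {n : ℕ} {H : Type*} [Group H] [TopologicalSpace H] [IsTopologicalGroup H]
variable {X : Type*} [TopologicalSpace X] [LocallyCompactSpace X] [T2Space X]
  [SecondCountableTopology X] [MeasurableSpace X] [BorelSpace X]
  [MulAction (SpecialLinearGroup (Fin n) ℝ × H) X]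
  [ContinuousSMul (SpecialLinearGroup (Fin n) ℝ × H) X]

/-- Haar dichotomy. -/
theorem haar_dichotomy [LocallyCompactSpace H] [SecondCountableTopology H] [T2Space H]
    (htrans : ∀ x y : X, ∃ g : SpecialLinearGroup (Fin n) ℝ × H, g • x = y)
    (hdense : ∀ x : X, Dense {y : X | ∃ g : SpecialLinearGroup (Fin n) ℝ, (g, (1 : H)) • x = y})
    (m : Measure X) [IsProbabilityMeasure m]
    (hm : ∀ g : SpecialLinearGroup (Fin n) ℝ × H, m.map (fun z => g • z) = m)
    (A : Subgroup (SpecialLinearGroup (Fin n) ℝ × H)) (hA : ∀ a ∈ A, IsClassADiag a.1)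
    (hAD : ∀ d : SpecialLinearGroup (Fin n) ℝ, IsPosDiag d → (d, (1 : H)) ∈ A)
    (μ : Measure X) [IsProbabilityMeasure μ]
    (hμ : ∀ a ∈ A, μ.map (fun z => a • z) = μ)
    (herg : ∀ s : Set X, MeasurableSet s → (∀ a ∈ A, (fun z => a • z) ⁻¹' s =ᵐ[μ] s) →
      μ s = 0 ∨ μ sᶜ = 0)
    (Y : Matrix (Fin n) (Fin n) ℝ) (b : ℝ → SpecialLinearGroup (Fin n) ℝ)
    (hb : ∀ s, (b s).1 = NormedSpace.exp (s • Y)) (I : Set (Fin n)) (hI : I.Nonempty)
    (hI' : Iᶜ.Nonempty)
    (hreach : ∀ i ∈ I, ∀ j ∉ I, Relation.ReflTransGen (fun p q => Y p q ≠ 0) i j) :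
    SingAlong (fun s => (b s, (1 : H))) μ ∨ μ = m := by
  classical
  rcases along_main (MonoidHom.id _) IsClosedEmbedding.id A hA μ hμ herg b (expcurve_cont Y b hb)
    (expcurve_add Y b hb) with h | h
  · right
    obtain ⟨i₀, hi₀⟩ := hI
    obtain ⟨j₀, hj₀⟩ := hI'
    set S : Subgroup (SpecialLinearGroup (Fin n) ℝ) :=
      (stb (G := SpecialLinearGroup (Fin n) ℝ × H) μ).comap (MonoidHom.inl _ H) with hS
    have hcl : IsClosed (S : Set (SpecialLinearGroup (Fin n) ℝ)) :=
      (stb_closed μ).preimage (continuous_id.prodMk continuous_const)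
    have hD : ∀ d : SpecialLinearGroup (Fin n) ℝ, IsPosDiag d → d ∈ S := fun d hd =>
      hμ _ (hAD d hd)
    refine haar_of_inv htrans m hm hdense μ (Finset.univ.filter (fun i => i ∈ I)) i₀ j₀
      (by simpa using hi₀) (by simpa using hj₀) S (fun g hg => hg) hD ?_
    intro i hi j hj hij s
    exact path_mem S hcl hD Y b hb h i j hij (hreach i (by simpa using hi) j (by simpa using hj)) s
  · exact Or.inl h

end Pool.Agent.Work.MP_67388f_an
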