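import Pool.Agent.Work.MP_67388f_an.ZeroE

set_option autoImplicit false

namespace Pool.Agent.Work.MP_67388f_an

open MeasureTheory Filter Topology Matrix

section general

variable {X : Type*} [TopologicalSpace X] [LocallyCompactSpace X] [T2Space X]
  [SecondCountableTopology X] [MeasurableSpace X] [BorelSpace X]
variable {G : Type*} [Group G] [TopologicalSpace G] [IsTopologicalGroup G] [MulAction G X]
  [ContinuousSMul G X]

/-- conjugation of a transvection by a power of a diagonal matrix -/
private lemma maut_conj {n : ℕ} (α : Fin n → ℝ) (hα : ∀ i, 0 < α i)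
    (a : SpecialLinearGroup (Fin n) ℝ) (ha : a.1 = diagonal α) {i j : Fin n} (hij : i ≠ j)
    (s : ℝ) (k : ℕ) :
    a ^ k * SpecialLinearGroup.transvection hij s * (a ^ k)⁻¹
      = SpecialLinearGroup.transvection hij ((α i / α j) ^ k * s) := by
  rw [mul_inv_eq_iff_eq_mul]
  have hk : (a ^ k).1 = diagonal (fun i => α i ^ k) := by
    induction k with
    | zero => simp
    | succ k ih =>
      rw [pow_succ]
      show (a ^ k).1 * a.1 = _
      rw [ih, ha, diagonal_mul_diagonal]
      simp only [pow_succ]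
  apply Subtype.ext
  show (a ^ k).1 * (1 + single i j s) = (1 + single i j ((α i / α j) ^ k * s)) * (a ^ k).1
  rw [hk, mul_add, add_mul, mul_one, one_mul]
  congr 1
  ext p q
  rw [diagonal_mul, mul_diagonal, single_apply, single_apply]
  by_cases h : i = p ∧ j = q
  · obtain ⟨rfl, rfl⟩ := h
    simp only [and_self, if_true]
    have := (hα j).ne'
    rw [div_pow]
    field_simp
  · rw [if_neg h, if_neg h]; simp

/-- transvections depend continuously on the parameter -/
private lemma maut_tendsto {n : ℕ} {i j : Fin n} (hij : i ≠ j) (c : ℕ → ℝ)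
    (hc : Tendsto c atTop (𝓝 0)) :
    Tendsto (fun k => SpecialLinearGroup.transvection hij (c k)) atTop (𝓝 1) := by
  have hind : IsInducing (fun A : SpecialLinearGroup (Fin n) ℝ => (A : Matrix (Fin n) (Fin n) ℝ)) :=
    SpecialLinearGroup.isClosedEmbedding_val.isInducing
  refine hind.tendsto_nhds_iff.2 ?_
  refine tendsto_pi_nhds.2 fun p => tendsto_pi_nhds.2 fun q => ?_
  show Tendsto (fun k => ((1 : Matrix (Fin n) (Fin n) ℝ) + single i j (c k)) p q) atTop
    (𝓝 ((1 : Matrix (Fin n) (Fin n) ℝ) p q))
  simp only [Matrix.add_apply, single_apply]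
  by_cases h : i = p ∧ j = q
  · simp only [h, and_self, if_true]
    simpa using hc.const_add ((1 : Matrix (Fin n) (Fin n) ℝ) p q)
  · simp only [if_neg h, add_zero]
    exact tendsto_const_nhds

/-- the commutator of two transvections -/
private lemma maut_comm {n : ℕ} {i j l : Fin n} (hij : i ≠ j) (hil : i ≠ l) (hlj : l ≠ j) (s : ℝ) :
    SpecialLinearGroup.transvection hij s
      = SpecialLinearGroup.transvection hil s * SpecialLinearGroup.transvection hlj (1 : ℝ)
        * (SpecialLinearGroup.transvection hil s)⁻¹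
        * (SpecialLinearGroup.transvection hlj (1 : ℝ))⁻¹ := by
  rw [eq_mul_inv_iff_mul_eq, eq_mul_inv_iff_mul_eq]
  apply Subtype.ext
  show (1 + single i j s) * (1 + single l j (1 : ℝ)) * (1 + single i l s)
    = (1 + single i l s) * (1 + single l j (1 : ℝ))
  have h1 : (single i j s : Matrix (Fin n) (Fin n) ℝ) * single l j (1 : ℝ) = 0 := by
    rw [single_mul_single_of_ne]; exact fun h => hlj h.symm
  have h2 : (single i j s : Matrix (Fin n) (Fin n) ℝ) * single i l s = 0 := by
    rw [single_mul_single_of_ne]; exact fun h => hij h.symm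
  have h3 : (single l j (1 : ℝ) : Matrix (Fin n) (Fin n) ℝ) * single i l s = 0 := by
    rw [single_mul_single_of_ne]; exact fun h => hij h.symm
  have h4 : (single i l s : Matrix (Fin n) (Fin n) ℝ) * single l j (1 : ℝ) = single i j s := by
    rw [single_mul_single_same, mul_one]
  simp only [mul_add, add_mul, mul_one, one_mul, h1, h2, h3, h4, add_zero]
  abel

/-- Mautner phenomenon: if `SL(n, ℝ)` acts ergodically then a diagonal matrix `a ≠ 1` has no
nonconstant invariant functions in `L²`. -/
theorem mautner_const {n : ℕ} (io : SpecialLinearGroup (Fin n) ℝ →* G) (hio : Continuous io)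
    (m : Measure X) [IsProbabilityMeasure m] (hm : ∀ g, m.map (fun z => io g • z) = m)
    (herg : ∀ s : Set X, MeasurableSet s → (∀ g, (fun z => io g • z) ⁻¹' s =ᵐ[m] s) →
      m s = 0 ∨ m sᶜ = 0)
    (α : Fin n → ℝ) (hα : ∀ i, 0 < α i) (hne : ∃ i j, α i ≠ α j)
    (a : SpecialLinearGroup (Fin n) ℝ) (ha : a.1 = diagonal α) (f : Lp ℝ 2 m)
    (hf : (fun x => f (io a • x)) =ᵐ[m] f) : ∃ c : ℝ, (f : X → ℝ) =ᵐ[m] fun _ => c := by
  classical
  letI act : MulAction (SpecialLinearGroup (Fin n) ℝ) X := MulAction.compHom X io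
  have hact : ∀ (g : SpecialLinearGroup (Fin n) ℝ) (x : X), g • x = io g • x := fun _ _ => rfl
  haveI : ContinuousSMul (SpecialLinearGroup (Fin n) ℝ) X :=
    ⟨(hio.comp continuous_fst).smul continuous_snd⟩
  haveI : SMulInvariantMeasure (SpecialLinearGroup (Fin n) ℝ) X m := ⟨fun g s hs => by
    have h1 : (m.map (fun z => io g • z)) s = m s := by rw [hm g]
    rwa [Measure.map_apply ((continuous_const_smul (io g)).measurable) hs] at h1⟩
  letI : MeasurableSpace (SpecialLinearGroup (Fin n) ℝ) := borel _
  haveI : BorelSpace (SpecialLinearGroup (Fin n) ℝ) := ⟨rfl⟩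
  haveI : m.Regular := inferInstance
  haveI : Fact ((2 : ENNReal) ≠ ⊤) := ⟨by norm_num⟩
  have hcont : Continuous fun g : SpecialLinearGroup (Fin n) ℝ => DomMulAct.mk g • f :=
    DomMulAct.continuous_mk.smul continuous_const
  let S : Subgroup (SpecialLinearGroup (Fin n) ℝ) :=
    { carrier := {g | DomMulAct.mk g • f = f}
      one_mem' := by
        show DomMulAct.mk 1 • f = f
        rw [DomMulAct.mk_one, one_smul]
      mul_mem' := by
        intro g h hg hh
        show DomMulAct.mk (g * h) • f = f
        rw [DomMulAct.mk_mul, mul_smul]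
        rw [show DomMulAct.mk g • f = f from hg]
        exact hh
      inv_mem' := by
        intro g hg
        show DomMulAct.mk g⁻¹ • f = f
        rw [DomMulAct.mk_inv]
        conv_lhs => rw [← (show DomMulAct.mk g • f = f from hg)]
        rw [inv_smul_smul] }
  have hmemS : ∀ g, g ∈ S ↔ DomMulAct.mk g • f = f := fun g => Iff.rfl
  have haS : a ∈ S := by
    rw [hmemS]
    apply Lp.ext
    refine (DomMulAct.smul_Lp_ae_eq _ _).trans ?_
    exact hf
  -- the Mautner argument
  have maut : ∀ c ∈ S, ∀ u : SpecialLinearGroup (Fin n) ℝ,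
      Tendsto (fun k : ℕ => c ^ k * u * (c ^ k)⁻¹) atTop (𝓝 1) → u ∈ S := by
    intro c hc u hu
    have h1 : Tendsto (fun k : ℕ => dist (DomMulAct.mk (c ^ k * u * (c ^ k)⁻¹) • f) f) atTop
        (𝓝 (dist (DomMulAct.mk (1 : SpecialLinearGroup (Fin n) ℝ) • f) f)) :=
      ((hcont.tendsto 1).comp hu).dist tendsto_const_nhds
    have h2 : ∀ k : ℕ, dist (DomMulAct.mk (c ^ k * u * (c ^ k)⁻¹) • f) f
        = dist (DomMulAct.mk u • f) f := by
      intro k
      have hck' : DomMulAct.mk (c ^ k)⁻¹ • f = f := inv_mem (pow_mem hc k)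
      have hck : DomMulAct.mk (c ^ k) • f = f := pow_mem hc k
      rw [DomMulAct.mk_mul, DomMulAct.mk_mul, mul_smul, mul_smul, hck]
      calc dist (DomMulAct.mk (c ^ k)⁻¹ • DomMulAct.mk u • f) f
          = dist (DomMulAct.mk (c ^ k)⁻¹ • DomMulAct.mk u • f) (DomMulAct.mk (c ^ k)⁻¹ • f) := by
            rw [hck']
        _ = dist (DomMulAct.mk u • f) f := dist_smul _ _ _
    simp_rw [h2] at h1
    have h3 := tendsto_nhds_unique h1 tendsto_const_nhds
    rw [DomMulAct.mk_one, one_smul, dist_self] at h3
    exact dist_eq_zero.1 h3.symm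
  -- transvections
  have htr1 : ∀ (i j : Fin n) (hij : i ≠ j), α i ≠ α j → ∀ s : ℝ,
      SpecialLinearGroup.transvection hij s ∈ S := by
    intro i j hij hne s
    rcases lt_or_gt_of_ne hne with h | h
    · refine maut a haS _ ?_
      simp_rw [maut_conj α hα a ha hij s]
      refine maut_tendsto hij _ ?_
      have h0 : Tendsto (fun k : ℕ => (α i / α j) ^ k) atTop (𝓝 0) :=
        tendsto_pow_atTop_nhds_zero_of_lt_one (div_nonneg (hα i).le (hα j).le)
          ((div_lt_one (hα j)).2 h)
      simpa using h0.mul_const s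
    · refine maut a⁻¹ (inv_mem haS) _ ?_
      have hα' : ∀ i, 0 < (α i)⁻¹ := fun i => inv_pos.2 (hα i)
      have ha' : (a⁻¹).1 = diagonal (fun i => (α i)⁻¹) := by
        have h1 : a.1 * (a⁻¹).1 = 1 := congrArg Subtype.val (mul_inv_cancel a)
        have h2 : diagonal (fun i => (α i)⁻¹) * a.1 = 1 := by
          rw [ha, diagonal_mul_diagonal, ← diagonal_one]
          congr 1
          ext i
          exact inv_mul_cancel₀ (hα i).ne'
        calc (a⁻¹).1 = (diagonal (fun i => (α i)⁻¹) * a.1) * (a⁻¹).1 := by rw [h2, one_mul]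
          _ = diagonal (fun i => (α i)⁻¹) := by rw [mul_assoc, h1, mul_one]
      simp_rw [maut_conj (fun i => (α i)⁻¹) hα' a⁻¹ ha' hij s]
      refine maut_tendsto hij _ ?_
      have h0 : Tendsto (fun k : ℕ => ((α i)⁻¹ / (α j)⁻¹) ^ k) atTop (𝓝 0) :=
        tendsto_pow_atTop_nhds_zero_of_lt_one (div_nonneg (hα' i).le (hα' j).le)
          ((div_lt_one (hα' j)).2 ((inv_lt_inv₀ (hα i) (hα j)).2 h))
      simpa using h0.mul_const s
  have htr : ∀ (i j : Fin n) (hij : i ≠ j) (s : ℝ),
      SpecialLinearGroup.transvection hij s ∈ S := by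
    intro i j hij s
    by_cases h : α i = α j
    · obtain ⟨l, hl⟩ : ∃ l, α l ≠ α i := by
        by_contra hcon
        push Not at hcon
        obtain ⟨p, q, hpq⟩ := hne
        exact hpq ((hcon p).trans (hcon q).symm)
      have hil : i ≠ l := fun h => hl (by rw [h])
      have hlj : l ≠ j := fun h' => hl (by rw [h', h])
      rw [maut_comm hij hil hlj s]
      have h1 := htr1 i l hil (fun h' => hl h'.symm) s
      have h2 := htr1 l j hlj (by rw [← h]; exact hl) 1
      exact mul_mem (mul_mem (mul_mem h1 h2) (inv_mem h1)) (inv_mem h2)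
    · exact htr1 i j hij h s
  have hall : ∀ g, g ∈ S := sl_gen S htr
  have hinv : ∀ g, (fun x => f (io g • x)) =ᵐ[m] f := by
    intro g
    have h1 : DomMulAct.mk g • f = f := hall g
    have h2 := DomMulAct.smul_Lp_ae_eq (DomMulAct.mk g) f
    rw [h1] at h2
    exact h2.symm
  obtain ⟨c, hc⟩ := exists_eventuallyEq_const_of_forall_separating (l := ae m) (f := (f : X → ℝ))
    MeasurableSet (fun U hU => by
      have hfm : Measurable (f : X → ℝ) := (Lp.stronglyMeasurable f).measurable
      rcases herg ((f : X → ℝ) ⁻¹' U) (hfm hU) (fun g => by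
        filter_upwards [hinv g] with x hx
        show (f (io g • x) ∈ U) = (f x ∈ U)
        rw [hx]) with h | h
      · exact Or.inr (measure_eq_zero_iff_ae_notMem.1 h)
      · refine Or.inl ?_
        filter_upwards [measure_eq_zero_iff_ae_notMem.1 h] with x hx
        simpa using hx)
  exact ⟨c, hc⟩

end general

end Pool.Agent.Work.MP_67388f_an
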